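import Mathlib

set_option autoImplicit false

/-!
# Uniqueness of solutions of two incommensurable difference equations on an interval
-/

namespace Pool.MP_d0f9e0_co.SH

open Set Filter Topology

theorem lim_right {f : ℝ → ℝ} {a b : ℝ} (ha : 0 < a) (hb : 0 < b)
    (hc : ContinuousOn f (Ioo 0 (a + b))) (h1 : ∀ z, 0 < z → z < b → f (z + a) = f z) :
    Tendsto f (𝓝[>] 0) (𝓝 (f a)) := by
  have hca : ContinuousAt f a := hc.continuousAt (Ioo_mem_nhds ha (by linarith))
  have h2 : Tendsto (fun z : ℝ => f (z + a)) (𝓝[>] 0) (𝓝 (f a)) := by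
    have h3 : Tendsto (fun z : ℝ => z + a) (𝓝[>] 0) (𝓝 a) := by
      have h4 : Tendsto (fun z : ℝ => z + a) (𝓝 0) (𝓝 (0 + a)) :=
        (continuous_id.add continuous_const).tendsto 0
      rw [zero_add] at h4
      exact h4.mono_left nhdsWithin_le_nhds
    exact hca.tendsto.comp h3
  refine h2.congr' ?_
  have h5 : ∀ᶠ z : ℝ in 𝓝[>] 0, z ∈ Ioo (0 : ℝ) b := Ioo_mem_nhdsGT hb
  filter_upwards [h5] with z hz
  exact h1 z hz.1 hz.2

theorem lim_left {f : ℝ → ℝ} {a b : ℝ} (ha : 0 < a) (hb : 0 < b)
    (hc : ContinuousOn f (Ioo 0 (a + b))) (h1 : ∀ z, 0 < z → z < b → f (z + a) = f z) :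
    Tendsto f (𝓝[<] (a + b)) (𝓝 (f b)) := by
  have hca : ContinuousAt f b := hc.continuousAt (Ioo_mem_nhds hb (by linarith))
  have h2 : Tendsto (fun z : ℝ => f (z - a)) (𝓝[<] (a + b)) (𝓝 (f b)) := by
    have h3 : Tendsto (fun z : ℝ => z - a) (𝓝[<] (a + b)) (𝓝 b) := by
      have h4 : Tendsto (fun z : ℝ => z - a) (𝓝 (a + b)) (𝓝 (a + b - a)) :=
        (continuous_id.sub continuous_const).tendsto (a + b)
      rw [add_sub_cancel_left] at h4
      exact h4.mono_left nhdsWithin_le_nhds
    exact hca.tendsto.comp h3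
  refine h2.congr' ?_
  have h5 : ∀ᶠ z : ℝ in 𝓝[<] (a + b), z ∈ Ioo a (a + b) := Ioo_mem_nhdsLT (by linarith)
  filter_upwards [h5] with z hz
  have h6 := h1 (z - a) (by linarith [hz.1]) (by linarith [hz.2])
  rw [sub_add_cancel] at h6
  exact h6.symm

/-- A continuous function on `(0, a+b)` which has the two periods `a` and `b` (as long as both
points are in the interval), `a/b` irrational, is constant. -/
theorem rot_const {f : ℝ → ℝ} {a b : ℝ} (ha : 0 < a) (hb : 0 < b) (hab : Irrational (a / b))
    (hc : ContinuousOn f (Ioo 0 (a + b))) (h1 : ∀ z, 0 < z → z < b → f (z + a) = f z)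
    (h2 : ∀ z, 0 < z → z < a → f (z + b) = f z) :
    ∀ z ∈ Ioo 0 (a + b), ∀ y ∈ Ioo 0 (a + b), f z = f y := by
  have hp : 0 < a + b := by linarith
  have hc' : ContinuousOn f (Ioo 0 (b + a)) := by rw [add_comm b a]; exact hc
  have hfab : f a = f b := tendsto_nhds_unique (lim_right ha hb hc h1) (lim_right hb ha hc' h2)
  haveI : Fact (0 < a + b) := ⟨hp⟩
  set f0 : ℝ → ℝ := fun t => if 0 < t ∧ t < a + b then f t else f a with hf0
  have e0 : f0 0 = f a := by simp [hf0]
  have ep : f0 (0 + (a + b)) = f a := by simp [hf0]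
  have ein : ∀ t ∈ Ioo 0 (a + b), f0 t = f t := by
    intro t ht
    simp only [hf0]
    rw [if_pos ⟨ht.1, ht.2⟩]
  have hcont0 : ContinuousOn f0 (Icc 0 (0 + (a + b))) := by
    intro t ht
    rw [zero_add] at ht
    rcases eq_or_lt_of_le ht.1 with h0 | h0
    · subst h0
      have h3 : Tendsto f0 (𝓝[>] 0) (𝓝 (f0 0)) := by
        rw [e0]
        refine (lim_right ha hb hc h1).congr' ?_
        have h5 : ∀ᶠ z : ℝ in 𝓝[>] 0, z ∈ Ioo (0 : ℝ) (a + b) := Ioo_mem_nhdsGT hp
        filter_upwards [h5] with z hz
        exact (ein z hz).symm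
      have h4 : ContinuousWithinAt f0 (Ioi 0) 0 := h3
      have h5 : ContinuousWithinAt f0 (Ici 0) 0 := by
        rw [← Ioi_insert]
        exact continuousWithinAt_insert_self.mpr h4
      exact h5.mono Icc_subset_Ici_self
    · rcases eq_or_lt_of_le ht.2 with h0' | h0'
      · subst h0'
        have h3 : Tendsto f0 (𝓝[<] (a + b)) (𝓝 (f0 (a + b))) := by
          have e1 : f0 (a + b) = f b := by
            rw [← hfab, ← ep, zero_add]
          rw [e1]
          refine (lim_left ha hb hc h1).congr' ?_
          have h5 : ∀ᶠ z : ℝ in 𝓝[<] (a + b), z ∈ Ioo (0 : ℝ) (a + b) := Ioo_mem_nhdsLT hp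
          filter_upwards [h5] with z hz
          exact (ein z hz).symm
        have h4 : ContinuousWithinAt f0 (Iio (a + b)) (a + b) := h3
        have h5 : ContinuousWithinAt f0 (Iic (a + b)) (a + b) := by
          rw [← Iio_insert]
          exact continuousWithinAt_insert_self.mpr h4
        rw [zero_add]
        exact h5.mono Icc_subset_Iic_self
      · have h3 : ContinuousAt f t := hc.continuousAt (Ioo_mem_nhds h0 h0')
        have h4 : ContinuousAt f0 t := by
          refine h3.congr ?_
          filter_upwards [Ioo_mem_nhds h0 h0'] with z hz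
          exact (ein z hz).symm
        exact h4.continuousWithinAt
  set g : AddCircle (a + b) → ℝ := AddCircle.liftIco (a + b) 0 f0 with hg
  have hgc : Continuous g := AddCircle.liftIco_continuous (by rw [e0, ep]) hcont0
  have hgv : ∀ t ∈ Ico 0 (a + b), g (t : AddCircle (a + b)) = f0 t := by
    intro t ht
    exact AddCircle.liftIco_coe_apply (by rw [zero_add]; exact ht)
  set G : ℝ → ℝ := fun t => g (t : AddCircle (a + b)) with hG
  have hGc : Continuous G := hgc.comp (AddCircle.continuous_mk' (a + b))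
  have hGp : ∀ t, G (t + (a + b)) = G t := by
    intro t
    simp only [hG, AddCircle.coe_add_period]
  have hGa0 : ∀ t ∈ Ico 0 (a + b), G (t + a) = G t := by
    intro t ht
    rcases eq_or_lt_of_le ht.1 with h0 | h0
    · subst h0
      have e1 : G (0 + a) = f a := by
        simp only [hG, zero_add]
        rw [hgv a ⟨ha.le, by linarith⟩, ein a ⟨ha, by linarith⟩]
      have e2 : G 0 = f a := by
        simp only [hG]
        rw [hgv 0 ⟨le_refl _, hp⟩, e0]
      rw [e1, e2]
    · rcases lt_trichotomy t b with h3 | h3 | h3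
      · have e1 : G (t + a) = f (t + a) := by
          simp only [hG]
          rw [hgv (t + a) ⟨by linarith, by linarith⟩, ein (t + a) ⟨by linarith, by linarith⟩]
        have e2 : G t = f t := by
          simp only [hG]
          rw [hgv t ht, ein t ⟨h0, ht.2⟩]
        rw [e1, e2, h1 t h0 h3]
      · subst h3
        have e1 : G (t + a) = f a := by
          have e3 := hGp 0
          rw [zero_add] at e3
          rw [add_comm t a, e3]
          simp only [hG]
          rw [hgv 0 ⟨le_refl _, hp⟩, e0]
        have e2 : G t = f t := by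
          simp only [hG]
          rw [hgv t ht, ein t ⟨h0, ht.2⟩]
        rw [e1, e2, hfab]
      · have e1 : G (t + a) = f (t - b) := by
          have e3 := hGp (t - b)
          have e4 : t - b + (a + b) = t + a := by ring
          rw [e4] at e3
          rw [e3]
          simp only [hG]
          rw [hgv (t - b) ⟨by linarith, by linarith [ht.2]⟩,
            ein (t - b) ⟨by linarith, by linarith [ht.2]⟩]
        have e2 : G t = f t := by
          simp only [hG]
          rw [hgv t ht, ein t ⟨h0, ht.2⟩]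
        have e5 := h2 (t - b) (by linarith) (by linarith [ht.2])
        rw [sub_add_cancel] at e5
        rw [e1, e2, e5]
  have hGa : ∀ t, G (t + a) = G t := by
    intro t
    obtain ⟨t', ht', e⟩ : ∃ t' ∈ Ico 0 (a + b), ∃ n : ℤ, t = t' + n • (a + b) := by
      refine ⟨toIcoMod hp 0 t, ?_, toIcoDiv hp 0 t, ?_⟩
      · have := toIcoMod_mem_Ico hp 0 t
        rwa [zero_add] at this
      · exact (toIcoMod_add_toIcoDiv_zsmul hp 0 t).symm
    obtain ⟨n, rfl⟩ := e
    have hper : Function.Periodic G (a + b) := hGp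
    have e1 : t' + n • (a + b) + a = t' + a + n • (a + b) := by ring
    rw [e1, (hper.zsmul n) (t' + a), (hper.zsmul n) t', hGa0 t' ht']
  have hGb : ∀ t, G (t + b) = G t := by
    intro t
    have e1 := hGa (t + b)
    have e2 := hGp t
    have e3 : t + b + a = t + (a + b) := by ring
    rw [e3] at e1
    rw [← e1, e2]
  let P : AddSubgroup ℝ :=
    { carrier := {c | ∀ t, G (t + c) = G t}
      add_mem' := by
        intro c d hc hd t
        rw [← add_assoc, hd, hc]
      zero_mem' := by
        intro t
        rw [add_zero]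
      neg_mem' := by
        intro c hc t
        have := hc (t + -c)
        rw [neg_add_cancel_right] at this
        exact this.symm }
  have hcl : IsClosed (P : Set ℝ) := by
    have e1 : (P : Set ℝ) = ⋂ t : ℝ, {c | G (t + c) = G t} := by
      ext c
      simp only [mem_iInter, mem_setOf_eq]
      rfl
    rw [e1]
    refine isClosed_iInter fun t => ?_
    exact isClosed_eq (hGc.comp (continuous_const.add continuous_id)) continuous_const
  have hle : AddSubgroup.closure {a, b} ≤ P := by
    rw [AddSubgroup.closure_le]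
    intro c hc
    rcases hc with rfl | hc
    · exact hGa
    · rw [mem_singleton_iff] at hc
      subst hc
      exact hGb
  have hd : Dense (P : Set ℝ) :=
    ((dense_addSubgroupClosure_pair_iff).mpr hab).mono hle
  have htop : (P : Set ℝ) = univ := by
    rw [← hcl.closure_eq]
    exact hd.closure_eq
  intro z hz y hy
  have ez : G z = f z := by
    simp only [hG]
    rw [hgv z ⟨hz.1.le, hz.2⟩, ein z hz]
  have ey : G y = f y := by
    simp only [hG]
    rw [hgv y ⟨hy.1.le, hy.2⟩, ein y hy]
  have hm : (y - z) ∈ (P : Set ℝ) := by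
    rw [htop]
    exact mem_univ _
  have h7 := hm z
  have e8 : z + (y - z) = y := by ring
  rw [e8] at h7
  rw [← ez, ← ey, h7]

/-- The multiplicative version used below. -/
theorem rot_one {f : ℝ → ℝ} {a b : ℝ} (ha : 0 < a) (hb : 0 < b) (hab : Irrational (a / b))
    (hc : ContinuousOn f (Ioo 0 (a + b))) (hpos : ∀ z ∈ Ioo 0 (a + b), 0 < f z)
    (h1 : ∀ z, 0 < z → z < b → f (z + a) = f z)
    (h2 : ∀ z, 0 < z → z < a → f (z + b) = f z)
    (h3 : ∀ z ∈ Ioo 0 (a + b), f (a + b - z) * f z = 1) :
    ∀ z ∈ Ioo 0 (a + b), f z = 1 := by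
  intro z hz
  have hz' : a + b - z ∈ Ioo 0 (a + b) := ⟨by linarith [hz.2], by linarith [hz.1]⟩
  have e := rot_const ha hb hab hc h1 h2 (a + b - z) hz' z hz
  have e2 := h3 z hz
  rw [e] at e2
  have hp := hpos z hz
  nlinarith [sq_nonneg (f z - 1), sq_nonneg (f z + 1)]

end Pool.MP_d0f9e0_co.SH
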