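import Mathlib
import Pool.Agent.Lib.MP_d0f9e0_co.SH.Rot

set_option autoImplicit false

/-!
# The two basic identities of the double sine function: subdivision and refinement of a cone
-/

namespace Pool.MP_d0f9e0_co.SH

open Set Filter Topology

/-- The interface with the double sine function `S a b z` (periods `a, b > 0`, `a/b` irrational),
used only on the open interval `(0, a + b)`. -/
structure DS (S : ℝ → ℝ → ℝ → ℝ) : Prop where
  pos : ∀ a b z, 0 < a → 0 < b → Irrational (a / b) → 0 < z → z < a + b → 0 < S a b z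
  cont : ∀ a b, 0 < a → 0 < b → Irrational (a / b) → ContinuousOn (S a b) (Ioo 0 (a + b))
  shift : ∀ a b z, 0 < a → 0 < b → Irrational (a / b) → 0 < z → z < b →
    S a b (z + a) = S a b z / (2 * Real.sin (Real.pi * (z / b)))
  symm : ∀ a b z, 0 < a → 0 < b → Irrational (a / b) → 0 < z → z < a + b → S a b z = S b a z
  refl : ∀ a b z, 0 < a → 0 < b → Irrational (a / b) → 0 < z → z < a + b →
    S a b (a + b - z) * S a b z = 1
  homog : ∀ l a b z, 0 < l → 0 < a → 0 < b → Irrational (a / b) → 0 < z → z < a + b →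
    S (l * a) (l * b) (l * z) = S a b z

/-! ### Irrational ratios -/

theorem irr_inv {a b : ℝ} (h : Irrational (a / b)) : Irrational (b / a) := by
  have := h.inv
  rwa [inv_div] at this

theorem irr_add_right {a b : ℝ} (ha : 0 < a) (hb : 0 < b) (h : Irrational (a / b)) :
    Irrational (a / (a + b)) := by
  apply irr_inv
  have e : (a + b) / a = 1 + b / a := by field_simp
  rw [e]
  have := (irr_inv h).natCast_add 1
  rwa [Nat.cast_one] at this

theorem irr_nat_mul {a b : ℝ} (h : Irrational (a / b)) {n : ℕ} (hn : n ≠ 0) :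
    Irrational ((n : ℝ) * a / b) := by
  have e : (n : ℝ) * a / b = (n : ℝ) * (a / b) := by ring
  rw [e]
  exact h.natCast_mul hn

/-! ### The sine -/

theorem two_sin_pos {x : ℝ} (h0 : 0 < x) (h1 : x < 1) : 0 < 2 * Real.sin (Real.pi * x) := by
  have := Real.sin_pos_of_pos_of_lt_pi (mul_pos Real.pi_pos h0)
    (by nlinarith [Real.pi_pos] : Real.pi * x < Real.pi)
  linarith

theorem two_sin_symm (x : ℝ) : 2 * Real.sin (Real.pi * (1 - x)) = 2 * Real.sin (Real.pi * x) := by
  have e : Real.pi * (1 - x) = Real.pi - Real.pi * x := by ring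
  rw [e, Real.sin_pi_sub]

theorem norm_exp_two (x : ℝ) :
    ‖Complex.exp (Complex.I * ((2 * Real.pi * x : ℝ) : ℂ)) - 1‖ = |2 * Real.sin (Real.pi * x)| := by
  rw [Complex.norm_exp_I_mul_ofReal_sub_one, Real.norm_eq_abs]
  congr 3
  ring

theorem prod_two_sin {n : ℕ} (hn : 0 < n) {x : ℝ} (h0 : 0 < x) (h1 : x < 1) :
    ∏ k ∈ Finset.range n, (2 * Real.sin (Real.pi * ((x + k) / n))) =
      2 * Real.sin (Real.pi * x) := by
  have hn' : (0 : ℝ) < n := by exact_mod_cast hn
  have hnC : (n : ℂ) ≠ 0 := by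
    have : (n : ℝ) ≠ 0 := hn'.ne'
    exact_mod_cast this
  have : NeZero n := ⟨hn.ne'⟩
  have hζ : IsPrimitiveRoot (Complex.exp (2 * Real.pi * Complex.I / n)) n :=
    Complex.isPrimitiveRoot_exp n hn.ne'
  set ζ := Complex.exp (2 * Real.pi * Complex.I / n) with hζd
  set y := Complex.exp (Complex.I * ((2 * Real.pi * (x / n) : ℝ) : ℂ)) with hy
  have h2 := hζ.pow_sub_pow_eq_prod_sub_mul 1 y hn
  rw [one_pow] at h2
  have h3 : ∏ μ ∈ Polynomial.nthRootsFinset n (1 : ℂ), (1 - μ * y) =
      ∏ k ∈ Finset.range n, (1 - ζ ^ k * y) := by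
    symm
    refine Finset.prod_nbij (fun k => ζ ^ k) ?_ ?_ ?_ ?_
    · intro k _
      rw [Polynomial.mem_nthRootsFinset hn, ← pow_mul, mul_comm k n, pow_mul, hζ.pow_eq_one,
        one_pow]
    · intro i hi j hj hij
      rw [Finset.coe_range, mem_Iio] at hi hj
      exact hζ.pow_inj hi hj hij
    · intro μ hμ
      rw [Finset.mem_coe, Polynomial.mem_nthRootsFinset hn] at hμ
      obtain ⟨i, hi, rfl⟩ := hζ.eq_pow_of_pow_eq_one hμ
      exact ⟨i, by simpa using hi, rfl⟩
    · intro k _
      rfl
  have h4 : ∀ k ∈ Finset.range n, ‖1 - ζ ^ k * y‖ = 2 * Real.sin (Real.pi * ((x + k) / n)) := by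
    intro k hk
    have hk' : k < n := Finset.mem_range.mp hk
    have hk'' : (k : ℝ) + 1 ≤ n := by exact_mod_cast hk'
    have e1 : ζ ^ k * y = Complex.exp (Complex.I * ((2 * Real.pi * ((x + k) / n) : ℝ) : ℂ)) := by
      rw [hζd, hy, ← Complex.exp_nat_mul, ← Complex.exp_add]
      congr 1
      push_cast
      field_simp
      ring
    rw [norm_sub_rev, e1, norm_exp_two, abs_of_pos]
    refine two_sin_pos (div_pos (by positivity) hn') ?_
    rw [div_lt_one hn']
    linarith
  have h5 : ‖(1 : ℂ) - y ^ n‖ = 2 * Real.sin (Real.pi * x) := by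
    have e1 : y ^ n = Complex.exp (Complex.I * ((2 * Real.pi * x : ℝ) : ℂ)) := by
      rw [hy, ← Complex.exp_nat_mul]
      congr 1
      push_cast
      field_simp
    rw [norm_sub_rev, e1, norm_exp_two, abs_of_pos (two_sin_pos h0 h1)]
  rw [← Finset.prod_congr rfl h4, ← norm_prod, ← h3, ← h2, h5]

/-! ### Subdivision and refinement -/

variable {S : ℝ → ℝ → ℝ → ℝ}

/-- The second shift. -/
theorem DS.shift' (h : DS S) {a b z : ℝ} (ha : 0 < a) (hb : 0 < b) (hab : Irrational (a / b))
    (h0 : 0 < z) (h1 : z < a) :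
    S a b (z + b) = S a b z / (2 * Real.sin (Real.pi * (z / a))) := by
  rw [h.symm a b (z + b) ha hb hab (by linarith) (by linarith),
    h.symm a b z ha hb hab (by linarith) (by linarith),
    h.shift b a z hb ha (irr_inv hab) h0 h1]

/-- **Subdivision.** `S(z|a,b) = S(z|a,a+b) S(z+b|a+b,b)`. -/
theorem DS.subdiv (h : DS S) {a b z : ℝ} (ha : 0 < a) (hb : 0 < b) (hab : Irrational (a / b))
    (h0 : 0 < z) (h1 : z < a + b) :
    S a b z = S a (a + b) z * S (a + b) b (z + b) := by
  have hs : 0 < a + b := by linarith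
  have i1 : Irrational (a / (a + b)) := irr_add_right ha hb hab
  have i2' : Irrational (b / (a + b)) := by
    have := irr_add_right hb ha (irr_inv hab)
    rwa [add_comm b a] at this
  have i2 : Irrational ((a + b) / b) := irr_inv i2'
  -- positivity
  have p0 : ∀ z ∈ Ioo 0 (a + b), 0 < S a b z := fun z hz => h.pos a b z ha hb hab hz.1 hz.2
  have p1 : ∀ z, 0 < z → z < a + (a + b) → 0 < S a (a + b) z :=
    fun z h0 h1 => h.pos a (a + b) z ha hs i1 h0 h1
  have p2 : ∀ z, 0 < z → z < a + b + b → 0 < S (a + b) b z :=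
    fun z h0 h1 => h.pos (a + b) b z hs hb i2 h0 h1
  -- continuity
  have c0 := h.cont a b ha hb hab
  have c1 : ContinuousOn (fun z => S a (a + b) z) (Ioo 0 (a + b)) :=
    (h.cont a (a + b) ha hs i1).mono (Ioo_subset_Ioo_right (by linarith))
  have c2 : ContinuousOn (fun z => S (a + b) b (z + b)) (Ioo 0 (a + b)) := by
    refine (h.cont (a + b) b hs hb i2).comp (continuous_id.add continuous_const).continuousOn ?_
    intro z hz
    exact ⟨by linarith [hz.1], by linarith [hz.2]⟩
  have key := rot_one (f := fun z => S a (a + b) z * S (a + b) b (z + b) / S a b z) ha hb hab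
    ((c1.mul c2).div c0 (fun z hz => (p0 z hz).ne')) ?_ ?_ ?_ ?_ z ⟨h0, h1⟩
  · rw [div_eq_one_iff_eq (p0 z ⟨h0, h1⟩).ne'] at key
    exact key.symm
  · intro z hz
    exact div_pos (mul_pos (p1 z hz.1 (by linarith [hz.2]))
      (p2 (z + b) (by linarith [hz.1]) (by linarith [hz.2]))) (p0 z hz)
  · intro z hz0 hz1
    have hA := h.shift a b z ha hb hab hz0 hz1
    have hB := h.shift a (a + b) z ha hs i1 hz0 (by linarith)
    -- `S (a+b) b (z+a+b)` and `S (a+b) b (z + b)`
    have hC := h.shift (a + b) b z hs hb i2 hz0 hz1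
    have hD := h.shift' hs hb i2 hz0 (by linarith : z < a + b)
    have s1 := two_sin_pos (div_pos hz0 hb) ((div_lt_one hb).mpr hz1)
    have s2 := two_sin_pos (div_pos hz0 hs) ((div_lt_one hs).mpr (by linarith : z < a + b))
    have e1 : z + a + b = z + (a + b) := by ring
    have q0 := p0 z ⟨hz0, by linarith⟩
    have q1 := p1 z hz0 (by linarith)
    have q2 := p2 z hz0 (by linarith)
    rw [hA, hB, e1, hC, hD]
    generalize 2 * Real.sin (Real.pi * (z / b)) = u at s1 ⊢
    generalize 2 * Real.sin (Real.pi * (z / (a + b))) = v at s2 ⊢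
    field_simp
  · intro z hz0 hz1
    have hA := h.shift' ha hb hab hz0 hz1
    -- `S a (a+b) (z + b)`
    have hB := h.shift' ha hs i1 hz0 hz1
    have hB' := h.shift a (a + b) (z + b) ha hs i1 (by linarith) (by linarith)
    have hD := h.shift' hs hb i2 (by linarith : 0 < z + b) (by linarith : z + b < a + b)
    have e1 : z + b + a = z + (a + b) := by ring
    have s1 := two_sin_pos (div_pos hz0 ha) ((div_lt_one ha).mpr hz1)
    have s2 := two_sin_pos (div_pos (by linarith : 0 < z + b) hs)
      ((div_lt_one hs).mpr (by linarith : z + b < a + b))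
    have q0 := p0 z ⟨hz0, by linarith⟩
    have q1 := p1 z hz0 (by linarith)
    have q1' := p1 (z + b) (by linarith) (by linarith)
    have q2 := p2 (z + b) (by linarith) (by linarith)
    rw [e1, hB] at hB'
    rw [hA, hD]
    have e3 : S a (a + b) (z + b) = S a (a + b) z / (2 * Real.sin (Real.pi * (z / a))) *
        (2 * Real.sin (Real.pi * ((z + b) / (a + b)))) := by
      rw [hB']
      generalize 2 * Real.sin (Real.pi * ((z + b) / (a + b))) = v at s2 ⊢
      field_simp
    rw [e3]
    generalize 2 * Real.sin (Real.pi * (z / a)) = u at s1 ⊢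
    generalize 2 * Real.sin (Real.pi * ((z + b) / (a + b))) = v at s2 ⊢
    field_simp
  · intro z hz
    have hz0 := hz.1
    have hz1 := hz.2
    have r0 := h.refl a b z ha hb hab hz0 hz1
    have r1 := h.refl a (a + b) (z + a) ha hs i1 (by linarith) (by linarith)
    have r2 := h.refl (a + b) b z hs hb i2 hz0 (by linarith)
    have hB := h.shift a (a + b) z ha hs i1 hz0 hz1
    have hD := h.shift' hs hb i2 hz0 hz1
    have s2 := two_sin_pos (div_pos hz0 hs) ((div_lt_one hs).mpr hz1)
    have e1 : a + (a + b) - (z + a) = a + b - z := by ring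
    have e2 : a + b - z + b = a + b + b - z := by ring
    have q0 := p0 z hz
    have q1 := p1 z hz0 (by linarith)
    have q2 := p2 z hz0 (by linarith)
    have q0' := p0 (a + b - z) ⟨by linarith, by linarith⟩
    rw [e1, hB] at r1
    rw [e2, hD]
    have f0 : S a b (a + b - z) = 1 / S a b z := by
      rw [eq_div_iff q0.ne']; exact r0
    have f1 : S a (a + b) (a + b - z) =
        1 / (S a (a + b) z / (2 * Real.sin (Real.pi * (z / (a + b))))) := by
      rw [eq_div_iff (div_pos q1 s2).ne']; exact r1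
    have f2 : S (a + b) b (a + b + b - z) = 1 / S (a + b) b z := by
      rw [eq_div_iff q2.ne']; exact r2
    rw [f0, f1, f2]
    generalize 2 * Real.sin (Real.pi * (z / (a + b))) = v at s2 ⊢
    field_simp

/-- **Refinement.** `S(z|a,b) = ∏_(k<n) S(z + k a|n a,b)`. -/
theorem DS.refine (h : DS S) {a b z : ℝ} (ha : 0 < a) (hb : 0 < b) (hab : Irrational (a / b))
    {n : ℕ} (hn : 0 < n) (h0 : 0 < z) (h1 : z < a + b) :
    S a b z = ∏ k ∈ Finset.range n, S (n * a) b (z + k * a) := by
  have hn' : (0 : ℝ) < n := by exact_mod_cast hn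
  have hna : 0 < n * a := mul_pos hn' ha
  have i1 : Irrational (n * a / b) := irr_nat_mul hab hn.ne'
  have hk : ∀ k ∈ Finset.range n, (k : ℝ) + 1 ≤ n := by
    intro k hk
    exact_mod_cast Finset.mem_range.mp hk
  have p0 : ∀ z ∈ Ioo 0 (a + b), 0 < S a b z := fun z hz => h.pos a b z ha hb hab hz.1 hz.2
  have p1 : ∀ z, 0 < z → z < n * a + b → 0 < S (n * a) b z :=
    fun z h0 h1 => h.pos (n * a) b z hna hb i1 h0 h1
  have rng : ∀ z, 0 < z → z < a + b → ∀ k ∈ Finset.range n,
      0 < z + k * a ∧ z + k * a < n * a + b := by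
    intro z h0 h1 k hk1
    have h2 := hk k hk1
    have h3 : (0 : ℝ) ≤ k := Nat.cast_nonneg k
    constructor
    · positivity
    · nlinarith
  have pp : ∀ z ∈ Ioo 0 (a + b), 0 < ∏ k ∈ Finset.range n, S (n * a) b (z + k * a) := by
    intro z hz
    refine Finset.prod_pos fun k hk => ?_
    obtain ⟨r1, r2⟩ := rng z hz.1 hz.2 k hk
    exact p1 _ r1 r2
  have c0 := h.cont a b ha hb hab
  have cp : ContinuousOn (fun z => ∏ k ∈ Finset.range n, S (n * a) b (z + k * a))
      (Ioo 0 (a + b)) := by
    refine continuousOn_finsetProd _ fun k hk => ?_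
    refine (h.cont (n * a) b hna hb i1).comp (continuous_id.add continuous_const).continuousOn ?_
    intro z hz
    exact rng z hz.1 hz.2 k hk
  have key := rot_one (f := fun z => (∏ k ∈ Finset.range n, S (n * a) b (z + k * a)) / S a b z)
    ha hb hab (cp.div c0 (fun z hz => (p0 z hz).ne')) ?_ ?_ ?_ ?_ z ⟨h0, h1⟩
  · rw [div_eq_one_iff_eq (p0 z ⟨h0, h1⟩).ne'] at key
    exact key.symm
  · intro z hz
    exact div_pos (pp z hz) (p0 z hz)
  · intro z hz0 hz1
    have hA := h.shift a b z ha hb hab hz0 hz1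
    have hC := h.shift (n * a) b z hna hb i1 hz0 hz1
    have s1 := two_sin_pos (div_pos hz0 hb) ((div_lt_one hb).mpr hz1)
    have q0 := p0 z ⟨hz0, by linarith⟩
    have q1 := p1 z hz0 (by nlinarith)
    have e1 : ∏ k ∈ Finset.range n, S (n * a) b (z + a + k * a) =
        (∏ k ∈ Finset.range n, S (n * a) b (z + k * a)) / (2 * Real.sin (Real.pi * (z / b))) := by
      have e2 : (∏ k ∈ Finset.range n, S (n * a) b (z + a + k * a)) * S (n * a) b z =
          (∏ k ∈ Finset.range n, S (n * a) b (z + k * a)) * S (n * a) b (z + n * a) := by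
        have e3 := Finset.prod_range_succ (fun k : ℕ => S (n * a) b (z + k * a)) n
        have e4 := Finset.prod_range_succ' (fun k : ℕ => S (n * a) b (z + k * a)) n
        rw [← e3, e4]
        simp only [Nat.cast_zero, zero_mul, add_zero]
        congr 1
        refine Finset.prod_congr rfl fun k _ => ?_
        congr 1
        push_cast
        ring
      rw [hC] at e2
      generalize 2 * Real.sin (Real.pi * (z / b)) = u at s1 e2 ⊢
      rw [eq_div_iff s1.ne']
      rw [mul_div_assoc', eq_div_iff s1.ne', mul_right_comm] at e2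
      exact mul_right_cancel₀ q1.ne' e2
    rw [hA, e1]
    generalize 2 * Real.sin (Real.pi * (z / b)) = u at s1 ⊢
    field_simp
  · intro z hz0 hz1
    have hA := h.shift' ha hb hab hz0 hz1
    have s1 := two_sin_pos (div_pos hz0 ha) ((div_lt_one ha).mpr hz1)
    have q0 := p0 z ⟨hz0, by linarith⟩
    have e1 : ∏ k ∈ Finset.range n, S (n * a) b (z + b + k * a) =
        (∏ k ∈ Finset.range n, S (n * a) b (z + k * a)) / (2 * Real.sin (Real.pi * (z / a))) := by
      rw [← prod_two_sin hn (div_pos hz0 ha) ((div_lt_one ha).mpr hz1), ← Finset.prod_div_distrib]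
      refine Finset.prod_congr rfl fun k hk1 => ?_
      have h2 := hk k hk1
      have h3 : (0 : ℝ) ≤ k := Nat.cast_nonneg k
      have e2 : z + b + k * a = z + k * a + b := by ring
      have e3 : (z / a + k) / n = (z + k * a) / (n * a) := by
        field_simp
      rw [e2, e3]
      exact h.shift' hna hb i1 (by positivity) (by nlinarith)
    rw [hA, e1]
    generalize 2 * Real.sin (Real.pi * (z / a)) = u at s1 ⊢
    field_simp
  · intro z hz
    have hz0 := hz.1
    have hz1 := hz.2
    have r0 := h.refl a b z ha hb hab hz0 hz1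
    have e1 : ∏ k ∈ Finset.range n, S (n * a) b (a + b - z + k * a) =
        ∏ k ∈ Finset.range n, S (n * a) b (n * a + b - (z + k * a)) := by
      rw [← Finset.prod_range_reflect]
      refine Finset.prod_congr rfl fun k hk1 => ?_
      congr 1
      have h2 : k + 1 ≤ n := Finset.mem_range.mp hk1
      have h3 : ((n - 1 - k : ℕ) : ℝ) = n - 1 - k := by
        have : n - 1 - k = n - (k + 1) := by omega
        rw [this, Nat.cast_sub h2]
        push_cast
        ring
      rw [h3]
      ring
    have e2 : (∏ k ∈ Finset.range n, S (n * a) b (a + b - z + k * a)) *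
        ∏ k ∈ Finset.range n, S (n * a) b (z + k * a) = 1 := by
      rw [e1, ← Finset.prod_mul_distrib]
      refine Finset.prod_eq_one fun k hk1 => ?_
      obtain ⟨r1, r2⟩ := rng z hz0 hz1 k hk1
      exact h.refl (n * a) b (z + k * a) hna hb i1 r1 r2
    rw [div_mul_div_comm, e2, r0, div_one]

/-! ### The abstract cone functions -/

/-- The interface of the cone machinery: a function with values in a commutative monoid, used
only for `a, b > 0`, `a / b` irrational, `0 < z < a + b`, with the subdivision and refinement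
identities. -/
structure CS {M : Type*} [CommMonoid M] (S : ℝ → ℝ → ℝ → M) : Prop where
  unit : ∀ a b z, 0 < a → 0 < b → Irrational (a / b) → 0 < z → z < a + b → IsUnit (S a b z)
  symm : ∀ a b z, 0 < a → 0 < b → Irrational (a / b) → 0 < z → z < a + b → S a b z = S b a z
  homog : ∀ l a b z, 0 < l → 0 < a → 0 < b → Irrational (a / b) → 0 < z → z < a + b →
    S (l * a) (l * b) (l * z) = S a b z
  subdiv : ∀ a b z, 0 < a → 0 < b → Irrational (a / b) → 0 < z → z < a + b →
    S a b z = S a (a + b) z * S (a + b) b (z + b)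
  refine : ∀ a b z, 0 < a → 0 < b → Irrational (a / b) → ∀ n : ℕ, 0 < n → 0 < z → z < a + b →
    S a b z = ∏ k ∈ Finset.range n, S (n * a) b (z + k * a)

theorem DS.cs (h : DS S) : CS S where
  unit := fun a b z ha hb hab h0 h1 => (h.pos a b z ha hb hab h0 h1).ne'.isUnit
  symm := h.symm
  homog := h.homog
  subdiv := fun _ _ _ ha hb hab h0 h1 => h.subdiv ha hb hab h0 h1
  refine := fun _ _ _ ha hb hab _ hn h0 h1 => h.refine ha hb hab hn h0 h1

theorem CS.map {M N : Type*} [CommMonoid M] [CommMonoid N] {S : ℝ → ℝ → ℝ → M} (h : CS S)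
    (f : M →* N) : CS (fun a b z => f (S a b z)) where
  unit := fun a b z ha hb hab h0 h1 => (h.unit a b z ha hb hab h0 h1).map f
  symm := fun a b z ha hb hab h0 h1 => by rw [h.symm a b z ha hb hab h0 h1]
  homog := fun l a b z hl ha hb hab h0 h1 => by rw [h.homog l a b z hl ha hb hab h0 h1]
  subdiv := fun a b z ha hb hab h0 h1 => by
    rw [← map_mul, ← h.subdiv a b z ha hb hab h0 h1]
  refine := fun a b z ha hb hab n hn h0 h1 => by
    rw [← map_prod, ← h.refine a b z ha hb hab n hn h0 h1]

theorem CS.mul {M : Type*} [CommMonoid M] {S T : ℝ → ℝ → ℝ → M} (hS : CS S) (hT : CS T) :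
    CS (fun a b z => S a b z * T a b z) where
  unit := fun a b z ha hb hab h0 h1 =>
    (hS.unit a b z ha hb hab h0 h1).mul (hT.unit a b z ha hb hab h0 h1)
  symm := fun a b z ha hb hab h0 h1 => by
    rw [hS.symm a b z ha hb hab h0 h1, hT.symm a b z ha hb hab h0 h1]
  homog := fun l a b z hl ha hb hab h0 h1 => by
    rw [hS.homog l a b z hl ha hb hab h0 h1, hT.homog l a b z hl ha hb hab h0 h1]
  subdiv := fun a b z ha hb hab h0 h1 => by
    rw [hS.subdiv a b z ha hb hab h0 h1, hT.subdiv a b z ha hb hab h0 h1]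
    exact mul_mul_mul_comm _ _ _ _
  refine := fun a b z ha hb hab n hn h0 h1 => by
    rw [hS.refine a b z ha hb hab n hn h0 h1, hT.refine a b z ha hb hab n hn h0 h1,
      Finset.prod_mul_distrib]

theorem CS.inv {M : Type*} [DivisionCommMonoid M] {S : ℝ → ℝ → ℝ → M} (hS : CS S) :
    CS (fun a b z => (S a b z)⁻¹) where
  unit := fun a b z ha hb hab h0 h1 => (hS.unit a b z ha hb hab h0 h1).inv
  symm := fun a b z ha hb hab h0 h1 => by rw [hS.symm a b z ha hb hab h0 h1]
  homog := fun l a b z hl ha hb hab h0 h1 => by rw [hS.homog l a b z hl ha hb hab h0 h1]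
  subdiv := fun a b z ha hb hab h0 h1 => by
    rw [hS.subdiv a b z ha hb hab h0 h1, mul_inv]
  refine := fun a b z ha hb hab n hn h0 h1 => by
    rw [hS.refine a b z ha hb hab n hn h0 h1, Finset.prod_inv_distrib]

end Pool.MP_d0f9e0_co.SH
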