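import Mathlib
import Pool.Agent.Lib.MP_d0f9e0_co.SH.Cone

set_option autoImplicit false

/-!
# The cone function `F_X(v,w)` of a periodic set and its cocycle property
-/

namespace Pool.MP_d0f9e0_co.SH

open Set Filter Topology

/-- The rational plane. -/
abbrev V : Type := ℚ × ℚ

/-- The orientation form. -/
def det (v w : V) : ℚ := v.1 * w.2 - v.2 * w.1

/-- The real place. -/
noncomputable def ell (θ : ℝ) (v : V) : ℝ := (v.1 : ℝ) + (v.2 : ℝ) * θ

/-- The half open parallelogram `{s v + t w : 0 < s ≤ 1, 0 ≤ t < 1}` (for `det v w > 0`). -/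
def Par (v w : V) : Set V :=
  {p | 0 < det p w ∧ det p w ≤ det v w ∧ 0 ≤ det v p ∧ det v p < det v w}

/-- The product of the double sine function over the points of `X` in the parallelogram. -/
noncomputable def F {M : Type*} [CommMonoid M] (S : ℝ → ℝ → ℝ → M) (θ : ℝ) (X : Set V)
    (v w : V) : M :=
  ∏ᶠ p ∈ X ∩ Par v w, S (ell θ v) (ell θ w) (ell θ p)

/-- `X` has bounded denominators. -/
def Disc (X : Set V) : Prop :=
  ∃ N : ℕ, 0 < N ∧ ∀ p ∈ X, ∃ a b : ℤ, (N : ℚ) * p.1 = a ∧ (N : ℚ) * p.2 = b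

/-- `v` is a period of `X`. -/
def Per (X : Set V) (v : V) : Prop := ∀ p, p + v ∈ X ↔ p ∈ X

/-! ### Algebra -/

theorem det_add_left (u v w : V) : det (u + v) w = det u w + det v w := by
  simp only [det, Prod.fst_add, Prod.snd_add]; ring

theorem det_add_right (u v w : V) : det u (v + w) = det u v + det u w := by
  simp only [det, Prod.fst_add, Prod.snd_add]; ring

theorem det_smul_left (r : ℚ) (v w : V) : det (r • v) w = r * det v w := by
  simp only [det, Prod.smul_fst, Prod.smul_snd, smul_eq_mul]; ring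

theorem det_smul_right (r : ℚ) (v w : V) : det v (r • w) = r * det v w := by
  simp only [det, Prod.smul_fst, Prod.smul_snd, smul_eq_mul]; ring

theorem det_self (v : V) : det v v = 0 := by
  simp only [det]; ring

theorem det_swap (v w : V) : det w v = - det v w := by
  simp only [det]; ring

theorem det_neg_left (v w : V) : det (-v) w = - det v w := by
  simp only [det, Prod.fst_neg, Prod.snd_neg]; ring

theorem det_neg_right (v w : V) : det v (-w) = - det v w := by
  simp only [det, Prod.fst_neg, Prod.snd_neg]; ring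

theorem det_expand (v w p : V) : det v w • p = det p w • v + det v p • w := by
  ext <;> simp only [det, Prod.smul_fst, Prod.smul_snd, Prod.fst_add, Prod.snd_add,
    smul_eq_mul] <;> ring

theorem ell_add (θ : ℝ) (v w : V) : ell θ (v + w) = ell θ v + ell θ w := by
  simp only [ell, Prod.fst_add, Prod.snd_add]; push_cast; ring

theorem ell_smul (θ : ℝ) (r : ℚ) (v : V) : ell θ (r • v) = r * ell θ v := by
  simp only [ell, Prod.smul_fst, Prod.smul_snd, smul_eq_mul]; push_cast; ring

theorem ell_neg (θ : ℝ) (v : V) : ell θ (-v) = - ell θ v := by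
  simp only [ell, Prod.fst_neg, Prod.snd_neg]; push_cast; ring

theorem ell_eq_zero {θ : ℝ} (hθ : Irrational θ) {v : V} (h : ell θ v = 0) : v = 0 := by
  unfold ell at h
  by_cases h2 : v.2 = 0
  · rw [h2] at h
    simp only [Rat.cast_zero, zero_mul, add_zero, Rat.cast_eq_zero] at h
    exact Prod.ext h h2
  · exfalso
    apply hθ
    refine ⟨-v.1 / v.2, ?_⟩
    have h3 : (v.2 : ℝ) ≠ 0 := by exact_mod_cast h2
    push_cast
    rw [div_eq_iff h3]
    linarith

theorem irr_ratio {θ : ℝ} (hθ : Irrational θ) {v w : V} (hw : 0 < ell θ w)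
    (hd : det v w ≠ 0) : Irrational (ell θ v / ell θ w) := by
  rintro ⟨r, hr⟩
  rw [eq_div_iff hw.ne'] at hr
  have h1 : ell θ (v + (-r) • w) = 0 := by
    rw [ell_add, ell_smul, ← hr]
    push_cast
    ring
  have h2 := ell_eq_zero hθ h1
  have h3 : det (v + (-r) • w) w = 0 := by
    rw [h2]; simp [det]
  rw [det_add_left, det_smul_left, det_self, mul_zero, add_zero] at h3
  exact hd h3

/-! ### The parallelogram -/

theorem mem_Par {v w p : V} : p ∈ Par v w ↔
    0 < det p w ∧ det p w ≤ det v w ∧ 0 ≤ det v p ∧ det v p < det v w := Iff.rfl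

theorem ell_expand (θ : ℝ) (v w p : V) :
    (det v w : ℝ) * ell θ p = (det p w : ℝ) * ell θ v + (det v p : ℝ) * ell θ w := by
  rw [← ell_smul, ← ell_smul, ← ell_smul, ← ell_add, ← det_expand]

theorem ell_mem {θ : ℝ} {v w p : V} (hv : 0 < ell θ v) (hw : 0 < ell θ w) (hp : p ∈ Par v w) :
    0 < ell θ p ∧ ell θ p < ell θ v + ell θ w := by
  obtain ⟨h1, h2, h3, h4⟩ := hp
  have hD : (0 : ℝ) < det v w := by exact_mod_cast lt_of_lt_of_le h1 h2
  have e := ell_expand θ v w p
  have h1' : (0 : ℝ) < det p w := by exact_mod_cast h1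
  have h2' : (det p w : ℝ) ≤ det v w := by exact_mod_cast h2
  have h3' : (0 : ℝ) ≤ det v p := by exact_mod_cast h3
  have h4' : (det v p : ℝ) < det v w := by exact_mod_cast h4
  have m1 : 0 < (det p w : ℝ) * ell θ v := mul_pos h1' hv
  have m2 : 0 ≤ (det v p : ℝ) * ell θ w := mul_nonneg h3' hw.le
  have m3 : (det p w : ℝ) * ell θ v ≤ (det v w : ℝ) * ell θ v :=
    mul_le_mul_of_nonneg_right h2' hv.le
  have m4 : (det v p : ℝ) * ell θ w < (det v w : ℝ) * ell θ w :=
    mul_lt_mul_of_pos_right h4' hw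
  constructor
  · by_contra hcon
    push Not at hcon
    have := mul_nonpos_of_nonneg_of_nonpos hD.le hcon
    linarith
  · have m5 : (det v w : ℝ) * ell θ p < (det v w : ℝ) * (ell θ v + ell θ w) := by
      rw [e, mul_add]
      linarith
    exact lt_of_mul_lt_mul_left m5 hD.le

theorem finite_inter {X : Set V} (hX : Disc X) (v w : V) : (X ∩ Par v w).Finite := by
  obtain ⟨N, hN, hX⟩ := hX
  have hN' : (0 : ℚ) < N := by exact_mod_cast hN
  obtain ⟨M, hM⟩ : ∃ M : ℕ, (N : ℚ) * (|v.1| + |w.1|) ≤ M ∧ (N : ℚ) * (|v.2| + |w.2|) ≤ M := by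
    obtain ⟨m1, h1⟩ := exists_nat_ge ((N : ℚ) * (|v.1| + |w.1|))
    obtain ⟨m2, h2⟩ := exists_nat_ge ((N : ℚ) * (|v.2| + |w.2|))
    refine ⟨max m1 m2, ?_, ?_⟩
    · exact h1.trans (by exact_mod_cast le_max_left m1 m2)
    · exact h2.trans (by exact_mod_cast le_max_right m1 m2)
  have hfin : ((fun ab : ℤ × ℤ => (((ab.1 : ℚ) / N, (ab.2 : ℚ) / N) : V)) ''
      (Icc (-(M : ℤ), -(M : ℤ)) ((M : ℤ), (M : ℤ)))).Finite :=
    (Set.finite_Icc _ _).image _
  refine hfin.subset ?_
  rintro p ⟨hp, h1, h2, h3, h4⟩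
  have hD : 0 < det v w := lt_of_lt_of_le h1 h2
  have e := det_expand v w p
  have key : ∀ x y z : ℚ, det v w * z = det p w * x + det v p * y →
      |z| ≤ |x| + |y| := by
    intro x y z hz
    have e1 : |det v w * z| ≤ det v w * (|x| + |y|) := by
      rw [hz]
      calc |det p w * x + det v p * y| ≤ |det p w * x| + |det v p * y| := abs_add_le _ _
        _ = det p w * |x| + det v p * |y| := by
            rw [abs_mul, abs_mul, abs_of_pos h1, abs_of_nonneg h3]
        _ ≤ det v w * |x| + det v w * |y| :=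
            add_le_add (mul_le_mul_of_nonneg_right h2 (abs_nonneg _))
              (mul_le_mul_of_nonneg_right h4.le (abs_nonneg _))
        _ = det v w * (|x| + |y|) := by ring
    rw [abs_mul, abs_of_pos hD] at e1
    exact le_of_mul_le_mul_left e1 hD
  have e1 := congrArg Prod.fst e
  have e2 := congrArg Prod.snd e
  simp only [Prod.smul_fst, Prod.smul_snd, Prod.fst_add, Prod.snd_add, smul_eq_mul] at e1 e2
  have k1 := key _ _ _ e1
  have k2 := key _ _ _ e2
  obtain ⟨a, b, ha, hb⟩ := hX p hp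
  have ba : |(a : ℚ)| ≤ M := by
    rw [← ha, abs_mul, abs_of_pos hN']
    exact (mul_le_mul_of_nonneg_left k1 hN'.le).trans hM.1
  have bb : |(b : ℚ)| ≤ M := by
    rw [← hb, abs_mul, abs_of_pos hN']
    exact (mul_le_mul_of_nonneg_left k2 hN'.le).trans hM.2
  rw [abs_le] at ba bb
  refine ⟨(a, b), ⟨⟨?_, ?_⟩, ⟨?_, ?_⟩⟩, ?_⟩
  · exact_mod_cast ba.1
  · exact_mod_cast bb.1
  · exact_mod_cast ba.2
  · exact_mod_cast bb.2
  · ext
    · simp only
      rw [← ha]
      field_simp
    · simp only
      rw [← hb]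
      field_simp

/-! ### Periods -/

theorem Per.add {X : Set V} {v w : V} (hv : Per X v) (hw : Per X w) : Per X (v + w) := by
  intro p
  rw [← add_assoc, hw, hv]

theorem Per.sub_mem {X : Set V} {v : V} (hv : Per X v) (p : V) : p - v ∈ X ↔ p ∈ X := by
  have := hv (p - v)
  rw [sub_add_cancel] at this
  exact this.symm

theorem Per.nsmul {X : Set V} {v : V} (hv : Per X v) (n : ℕ) : Per X ((n : ℚ) • v) := by
  induction n with
  | zero =>
    intro p
    rw [Nat.cast_zero, zero_smul, add_zero]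
  | succ n ih =>
    rw [Nat.cast_succ, add_smul, one_smul]
    exact ih.add hv

/-! ### Positivity -/

theorem S_pos {S : ℝ → ℝ → ℝ → ℝ} (h : DS S) {θ : ℝ} (hθ : Irrational θ) {v w p : V}
    (hv : 0 < ell θ v) (hw : 0 < ell θ w) (hp : p ∈ Par v w) :
    0 < S (ell θ v) (ell θ w) (ell θ p) := by
  obtain ⟨h1, h2⟩ := ell_mem hv hw hp
  have hD : 0 < det v w := lt_of_lt_of_le hp.1 hp.2.1
  exact h.pos _ _ _ hv hw (irr_ratio hθ hw hD.ne') h1 h2

theorem F_pos {S : ℝ → ℝ → ℝ → ℝ} (h : DS S) {θ : ℝ} (hθ : Irrational θ) (X : Set V) {v w : V}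
    (hv : 0 < ell θ v) (hw : 0 < ell θ w) : 0 < F S θ X v w := by
  unfold F
  refine finprod_induction (fun x : ℝ => 0 < x) one_pos (fun x y hx hy => mul_pos hx hy) ?_
  intro p
  refine finprod_induction (fun x : ℝ => 0 < x) one_pos (fun x y hx hy => mul_pos hx hy) ?_
  intro hp
  exact S_pos h hθ hv hw hp.2

variable {M : Type*} [CommMonoid M] {S : ℝ → ℝ → ℝ → M}

theorem S_unit (h : CS S) {θ : ℝ} (hθ : Irrational θ) {v w p : V} (hv : 0 < ell θ v)
    (hw : 0 < ell θ w) (hp : p ∈ Par v w) : IsUnit (S (ell θ v) (ell θ w) (ell θ p)) := by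
  obtain ⟨h1, h2⟩ := ell_mem hv hw hp
  have hD : 0 < det v w := lt_of_lt_of_le hp.1 hp.2.1
  exact h.unit _ _ _ hv hw (irr_ratio hθ hw hD.ne') h1 h2

theorem F_unit (h : CS S) {θ : ℝ} (hθ : Irrational θ) (X : Set V) {v w : V} (hv : 0 < ell θ v)
    (hw : 0 < ell θ w) : IsUnit (F S θ X v w) := by
  unfold F
  refine finprod_induction (fun x : M => IsUnit x) isUnit_one (fun x y hx hy => hx.mul hy) ?_
  intro p
  refine finprod_induction (fun x : M => IsUnit x) isUnit_one (fun x y hx hy => hx.mul hy) ?_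
  intro hp
  exact S_unit h hθ hv hw hp.2

/-! ### Subdivision -/

theorem S_subdiv₁ (h : CS S) {θ : ℝ} (hθ : Irrational θ) {v w p : V} (hv : 0 < ell θ v)
    (hw : 0 < ell θ w) (hp : p ∈ Par v w) :
    S (ell θ v) (ell θ w) (ell θ p) =
      S (ell θ v) (ell θ (v + w)) (ell θ p) * S (ell θ (v + w)) (ell θ w) (ell θ (p + w)) := by
  obtain ⟨h1, h2⟩ := ell_mem hv hw hp
  have hD : 0 < det v w := lt_of_lt_of_le hp.1 hp.2.1
  rw [ell_add, ell_add]
  exact h.subdiv _ _ _ hv hw (irr_ratio hθ hw hD.ne') h1 h2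

theorem S_subdiv₂ (h : CS S) {θ : ℝ} (hθ : Irrational θ) {v w p : V} (hv : 0 < ell θ v)
    (hw : 0 < ell θ w) (hp : p ∈ Par v w) :
    S (ell θ v) (ell θ w) (ell θ p) =
      S (ell θ v) (ell θ (v + w)) (ell θ (p + v)) * S (ell θ (v + w)) (ell θ w) (ell θ p) := by
  obtain ⟨h1, h2⟩ := ell_mem hv hw hp
  have hD : 0 < det v w := lt_of_lt_of_le hp.1 hp.2.1
  have hi := irr_ratio hθ hw hD.ne'
  rw [ell_add, ell_add]
  have hs : 0 < ell θ v + ell θ w := by linarith
  have i1 := irr_add_right hv hw hi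
  have i2 : Irrational ((ell θ v + ell θ w) / ell θ w) := by
    have := irr_inv (irr_add_right hw hv (irr_inv hi))
    rwa [add_comm (ell θ w) (ell θ v)] at this
  have e := h.subdiv _ _ (ell θ p) hw hv (irr_inv hi) h1 (by linarith)
  rw [add_comm (ell θ w) (ell θ v)] at e
  rw [h.symm _ _ _ hv hw hi h1 h2, e, mul_comm]
  rw [h.symm (ell θ v + ell θ w) (ell θ v) (ell θ p + ell θ v) hs hv (irr_inv i1) (by linarith)
    (by linarith)]
  rw [h.symm (ell θ w) (ell θ v + ell θ w) (ell θ p) hw hs (irr_inv i2) h1 (by linarith)]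

/-- The representative of `p` modulo `v, w` in `Par v (v+w)`. -/
noncomputable def r1 (v w p : V) : V := if det v p < det p w then p else p + v

/-- The representative of `p` modulo `v, w` in `Par (v+w) w`. -/
noncomputable def r2 (v w p : V) : V := if det v p < det p w then p + w else p

theorem bij1 {X : Set V} {v w : V} (hv : Per X v) :
    BijOn (r1 v w) (X ∩ Par v w) (X ∩ Par v (v + w)) := by
  refine ⟨?_, ?_, ?_⟩
  · rintro p ⟨hp, h1, h2, h3, h4⟩
    unfold r1
    split_ifs with hc
    · refine ⟨hp, ?_, ?_, ?_, ?_⟩ <;>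
      (try simp only [det_add_right, det_self]) <;> linarith [det_swap v p]
    · push Not at hc
      refine ⟨(hv p).mpr hp, ?_, ?_, ?_, ?_⟩ <;>
      (try simp only [det_add_right, det_add_left, det_self]) <;> linarith [det_swap v p]
  · rintro p ⟨hp, h1, h2, h3, h4⟩ q ⟨hq, g1, g2, g3, g4⟩ hpq
    unfold r1 at hpq
    split_ifs at hpq with hc hd hd
    · exact hpq
    · exfalso
      subst hpq
      rw [det_add_left] at h2
      linarith
    · exfalso
      subst hpq
      rw [det_add_left] at g2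
      linarith
    · exact add_right_cancel hpq
  · rintro q ⟨hq, g1, g2, g3, g4⟩
    rw [det_add_right] at g1 g2 g4
    rw [det_add_right, det_self] at g2
    rw [det_self] at g4
    have hs := det_swap v q
    by_cases hc : det q w ≤ det v w
    · refine ⟨q, ⟨hq, by linarith, hc, g3, by linarith⟩, ?_⟩
      unfold r1
      rw [if_pos (by linarith)]
    · push Not at hc
      refine ⟨q - v, ⟨(hv.sub_mem q).mpr hq, ?_, ?_, ?_, ?_⟩, ?_⟩
      · rw [sub_eq_add_neg, det_add_left, det_neg_left]; linarith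
      · rw [sub_eq_add_neg, det_add_left, det_neg_left]; linarith
      · rw [sub_eq_add_neg, det_add_right, det_neg_right, det_self]; linarith
      · rw [sub_eq_add_neg, det_add_right, det_neg_right, det_self]; linarith
      · unfold r1
        rw [if_neg, sub_add_cancel]
        push Not
        rw [sub_eq_add_neg, det_add_left, det_neg_left, det_add_right, det_neg_right, det_self]
        linarith

theorem bij2 {X : Set V} {v w : V} (hw : Per X w) :
    BijOn (r2 v w) (X ∩ Par v w) (X ∩ Par (v + w) w) := by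
  refine ⟨?_, ?_, ?_⟩
  · rintro p ⟨hp, h1, h2, h3, h4⟩
    unfold r2
    split_ifs with hc
    · refine ⟨(hw p).mpr hp, ?_, ?_, ?_, ?_⟩ <;>
      (try simp only [det_add_right, det_add_left, det_self]) <;> linarith [det_swap w p]
    · push Not at hc
      refine ⟨hp, ?_, ?_, ?_, ?_⟩ <;>
      (try simp only [det_add_right, det_add_left, det_self]) <;> linarith [det_swap w p]
  · rintro p ⟨hp, h1, h2, h3, h4⟩ q ⟨hq, g1, g2, g3, g4⟩ hpq
    unfold r2 at hpq
    split_ifs at hpq with hc hd hd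
    · exact add_right_cancel hpq
    · exfalso
      subst hpq
      rw [det_add_right] at g4
      linarith
    · exfalso
      subst hpq
      rw [det_add_right] at h4
      linarith
    · exact hpq
  · rintro q ⟨hq, g1, g2, g3, g4⟩
    rw [det_add_left] at g2 g3 g4
    rw [det_self] at g2
    rw [det_add_left, det_self] at g4
    have hs := det_swap w q
    by_cases hc : det v q < det v w
    · refine ⟨q, ⟨hq, g1, by linarith, by linarith, hc⟩, ?_⟩
      unfold r2
      rw [if_neg]
      push Not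
      linarith
    · push Not at hc
      refine ⟨q - w, ⟨(hw.sub_mem q).mpr hq, ?_, ?_, ?_, ?_⟩, ?_⟩
      · rw [sub_eq_add_neg, det_add_left, det_neg_left, det_self]; linarith
      · rw [sub_eq_add_neg, det_add_left, det_neg_left, det_self]; linarith
      · rw [sub_eq_add_neg, det_add_right, det_neg_right]; linarith
      · rw [sub_eq_add_neg, det_add_right, det_neg_right]; linarith
      · unfold r2
        rw [if_pos, sub_add_cancel]
        rw [sub_eq_add_neg, det_add_left, det_neg_left, det_add_right, det_neg_right, det_self]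
        linarith

/-- The special case of the cocycle property. -/
theorem F_subdiv (h : CS S) {θ : ℝ} (hθ : Irrational θ) {X : Set V} (hX : Disc X) {v w : V}
    (hv : 0 < ell θ v) (hw : 0 < ell θ w) (pv : Per X v) (pw : Per X w) :
    F S θ X v w = F S θ X v (v + w) * F S θ X (v + w) w := by
  have e1 : F S θ X v (v + w) = ∏ᶠ p ∈ X ∩ Par v w,
      S (ell θ v) (ell θ (v + w)) (ell θ (r1 v w p)) := by
    unfold F
    exact (finprod_mem_eq_of_bijOn (r1 v w) (bij1 pv) (fun p _ => rfl)).symm
  have e2 : F S θ X (v + w) w = ∏ᶠ p ∈ X ∩ Par v w,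
      S (ell θ (v + w)) (ell θ w) (ell θ (r2 v w p)) := by
    unfold F
    exact (finprod_mem_eq_of_bijOn (r2 v w) (bij2 pw) (fun p _ => rfl)).symm
  rw [e1, e2, ← finprod_mem_mul_distrib (finite_inter hX v w)]
  unfold F
  refine finprod_mem_congr rfl fun p hp => ?_
  unfold r1 r2
  split_ifs with hc
  · exact S_subdiv₁ h hθ hv hw hp.2
  · exact S_subdiv₂ h hθ hv hw hp.2

end Pool.MP_d0f9e0_co.SH
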