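import Mathlib
import Pool.Agent.Lib.MP_d0f9e0_co.SH.Fan

set_option autoImplicit false

/-!
# Refinement, the full cocycle property, homotheties and unions
-/

namespace Pool.MP_d0f9e0_co.SH

open Set Filter Topology

variable {M : Type*} [CommMonoid M] {S : ℝ → ℝ → ℝ → M}

theorem F_eq_prod (θ : ℝ) {X : Set V} (hX : Disc X) (v w : V) :
    F S θ X v w = ∏ p ∈ (finite_inter hX v w).toFinset, S (ell θ v) (ell θ w) (ell θ p) := by
  unfold F
  exact finprod_mem_eq_finite_toFinset_prod _ _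

theorem exists_slab {a D : ℚ} (hD : 0 < D) {n : ℕ} (h0 : 0 < a) (h1 : a ≤ n * D) :
    ∃ k : ℕ, k < n ∧ (k : ℚ) * D < a ∧ a ≤ (k + 1) * D := by
  have hc : 0 < ⌈a / D⌉₊ := Nat.ceil_pos.mpr (div_pos h0 hD)
  obtain ⟨k, hk⟩ : ∃ k, ⌈a / D⌉₊ = k + 1 := ⟨⌈a / D⌉₊ - 1, by omega⟩
  refine ⟨k, ?_, ?_, ?_⟩
  · have : ⌈a / D⌉₊ ≤ n := Nat.ceil_le.mpr ((div_le_iff₀ hD).mpr h1)
    omega
  · have : k < ⌈a / D⌉₊ := by omega
    rw [Nat.lt_ceil, lt_div_iff₀ hD] at this
    exact this
  · have : a / D ≤ (⌈a / D⌉₊ : ℚ) := Nat.le_ceil _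
    rw [hk, div_le_iff₀ hD] at this
    push_cast at this
    exact this

theorem exists_slab' {b D : ℚ} (hD : 0 < D) {n : ℕ} (h0 : 0 ≤ b) (h1 : b < n * D) :
    ∃ k : ℕ, k < n ∧ (k : ℚ) * D ≤ b ∧ b < (k + 1) * D := by
  refine ⟨⌊b / D⌋₊, ?_, ?_, ?_⟩
  · rw [Nat.floor_lt (div_nonneg h0 hD.le), div_lt_iff₀ hD]
    exact h1
  · have := Nat.floor_le (div_nonneg h0 hD.le)
    rwa [le_div_iff₀ hD] at this
  · have := Nat.lt_floor_add_one (b / D)
    rwa [div_lt_iff₀ hD] at this

theorem slab_unique {a D : ℚ} (hD : 0 < D) {k l : ℕ} (h1 : (k : ℚ) * D < a)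
    (h2 : a ≤ (k + 1) * D) (h3 : (l : ℚ) * D < a) (h4 : a ≤ (l + 1) * D) : k = l := by
  have e1 : (k : ℚ) < l + 1 := lt_of_mul_lt_mul_right (h1.trans_le h4) hD.le
  have e2 : (l : ℚ) < k + 1 := lt_of_mul_lt_mul_right (h3.trans_le h2) hD.le
  have e1' : k < l + 1 := by exact_mod_cast e1
  have e2' : l < k + 1 := by exact_mod_cast e2
  omega

theorem slab_unique' {a D : ℚ} (hD : 0 < D) {k l : ℕ} (h1 : (k : ℚ) * D ≤ a)
    (h2 : a < (k + 1) * D) (h3 : (l : ℚ) * D ≤ a) (h4 : a < (l + 1) * D) : k = l := by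
  have e1 : (k : ℚ) < l + 1 := lt_of_mul_lt_mul_right (h1.trans_lt h4) hD.le
  have e2 : (l : ℚ) < k + 1 := lt_of_mul_lt_mul_right (h3.trans_lt h2) hD.le
  have e1' : k < l + 1 := by exact_mod_cast e1
  have e2' : l < k + 1 := by exact_mod_cast e2
  omega

/-- Refinement in the first vector. -/
theorem F_nsmul_left (h : CS S) {θ : ℝ} (hθ : Irrational θ) {X : Set V} (hX : Disc X) {v w : V}
    (hv : 0 < ell θ v) (hw : 0 < ell θ w) (pv : Per X v) {n : ℕ} (hn : 0 < n) :
    F S θ X ((n : ℚ) • v) w = F S θ X v w := by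
  by_cases hD : 0 < det v w
  swap
  · -- both parallelograms are empty
    have hD' : ¬ 0 < det ((n : ℚ) • v) w := by
      rw [det_smul_left]
      push Not at hD ⊢
      exact mul_nonpos_of_nonneg_of_nonpos (Nat.cast_nonneg n) hD
    have emp : ∀ a b : V, ¬ 0 < det a b → Par a b = ∅ := by
      intro a b hab
      ext p
      simp only [mem_Par, mem_empty_iff_false, iff_false]
      rintro ⟨h1, h2, _⟩
      exact hab (h1.trans_le h2)
    unfold F
    rw [emp _ _ hD, emp _ _ hD', inter_empty, finprod_mem_empty, finprod_mem_empty]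
  have hn' : (0 : ℚ) < n := by exact_mod_cast hn
  rw [F_eq_prod θ hX, F_eq_prod θ hX]
  have e1 : ∀ p ∈ (finite_inter hX v w).toFinset, S (ell θ v) (ell θ w) (ell θ p) =
      ∏ k ∈ Finset.range n,
        S (ell θ ((n : ℚ) • v)) (ell θ w) (ell θ (p + (k : ℚ) • v)) := by
    intro p hp
    rw [Finite.mem_toFinset] at hp
    obtain ⟨h1, h2⟩ := ell_mem hv hw hp.2
    rw [h.refine _ _ _ hv hw (irr_ratio hθ hw hD.ne') n hn h1 h2]
    refine Finset.prod_congr rfl fun k _ => ?_
    rw [ell_smul, ell_add, ell_smul]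
    push_cast
    rfl
  rw [Finset.prod_congr rfl e1, ← Finset.prod_product']
  symm
  refine Finset.prod_nbij (fun pk => pk.1 + ((pk.2 : ℕ) : ℚ) • v) ?_ ?_ ?_ ?_
  · rintro ⟨p, k⟩ hpk
    rw [Finset.mem_product, Finite.mem_toFinset, Finset.mem_range] at hpk
    obtain ⟨⟨hp, h1, h2, h3, h4⟩, hk⟩ := hpk
    simp only at hp h1 h2 h3 h4 hk
    rw [Finite.mem_toFinset]
    have hk' : (k : ℚ) + 1 ≤ n := by exact_mod_cast hk
    have hk0 : (0 : ℚ) ≤ k := Nat.cast_nonneg k
    refine ⟨((pv.nsmul k) p).mpr hp, ?_, ?_, ?_, ?_⟩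
    · simp only [det_add_left, det_smul_left]
      nlinarith [mul_nonneg hk0 hD.le]
    · simp only [det_add_left, det_smul_left]
      nlinarith
    · simp only [det_add_right, det_smul_left, det_smul_right, det_self]
      nlinarith
    · simp only [det_add_right, det_smul_left, det_smul_right, det_self]
      nlinarith
  · rintro ⟨p, k⟩ hpk ⟨p', k'⟩ hpk' hab
    rw [Finset.mem_coe, Finset.mem_product, Finite.mem_toFinset] at hpk hpk'
    obtain ⟨⟨hp, h1, h2, h3, h4⟩, hk⟩ := hpk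
    obtain ⟨⟨hp', h1', h2', h3', h4'⟩, hk'⟩ := hpk'
    simp only at hab h1 h2 h1' h2'
    have hd := congrArg (fun q => det q w) hab
    simp only [det_add_left, det_smul_left] at hd
    have hkk : k = k' := slab_unique hD (a := det p w + k * det v w) (by linarith) (by linarith)
      (by linarith) (by linarith)
    subst hkk
    have := add_right_cancel hab
    rw [this]
  · intro q hq
    rw [Finset.mem_coe, Finite.mem_toFinset] at hq
    obtain ⟨hq, g1, g2, g3, g4⟩ := hq
    rw [det_smul_left] at g2 g3 g4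
    rw [det_smul_left] at g4
    obtain ⟨k, hk, k1, k2⟩ := exists_slab hD g1 g2
    refine ⟨(q - (k : ℚ) • v, k), ?_, ?_⟩
    · rw [Finset.mem_coe, Finset.mem_product, Finite.mem_toFinset, Finset.mem_range]
      have hk0 : (0 : ℚ) ≤ k := Nat.cast_nonneg k
      refine ⟨⟨((pv.nsmul k).sub_mem q).mpr hq, ?_, ?_, ?_, ?_⟩, hk⟩
      · simp only [sub_eq_add_neg, det_add_left, det_neg_left, det_smul_left]
        linarith
      · simp only [sub_eq_add_neg, det_add_left, det_neg_left, det_smul_left]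
        linarith
      · simp only [sub_eq_add_neg, det_add_right, det_neg_right, det_smul_right, det_self]
        have := nonneg_of_mul_nonneg_right g3 hn'
        linarith
      · simp only [sub_eq_add_neg, det_add_right, det_neg_right, det_smul_right, det_self]
        have := lt_of_mul_lt_mul_left g4 hn'.le
        linarith
    · simp only [sub_add_cancel]
  · rintro ⟨p, k⟩ _
    rfl

/-- Refinement in the second vector. -/
theorem F_nsmul_right (h : CS S) {θ : ℝ} (hθ : Irrational θ) {X : Set V} (hX : Disc X) {v w : V}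
    (hv : 0 < ell θ v) (hw : 0 < ell θ w) (pw : Per X w) {n : ℕ} (hn : 0 < n) :
    F S θ X v ((n : ℚ) • w) = F S θ X v w := by
  by_cases hD : 0 < det v w
  swap
  · have hD' : ¬ 0 < det v ((n : ℚ) • w) := by
      rw [det_smul_right]
      push Not at hD ⊢
      exact mul_nonpos_of_nonneg_of_nonpos (Nat.cast_nonneg n) hD
    have emp : ∀ a b : V, ¬ 0 < det a b → Par a b = ∅ := by
      intro a b hab
      ext p
      simp only [mem_Par, mem_empty_iff_false, iff_false]
      rintro ⟨h1, h2, _⟩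
      exact hab (h1.trans_le h2)
    unfold F
    rw [emp _ _ hD, emp _ _ hD', inter_empty, finprod_mem_empty, finprod_mem_empty]
  have hn' : (0 : ℚ) < n := by exact_mod_cast hn
  have hnR : (0 : ℝ) < n := by exact_mod_cast hn
  rw [F_eq_prod θ hX, F_eq_prod θ hX]
  have e1 : ∀ p ∈ (finite_inter hX v w).toFinset, S (ell θ v) (ell θ w) (ell θ p) =
      ∏ k ∈ Finset.range n,
        S (ell θ v) (ell θ ((n : ℚ) • w)) (ell θ (p + (k : ℚ) • w)) := by
    intro p hp
    rw [Finite.mem_toFinset] at hp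
    obtain ⟨h1, h2⟩ := ell_mem hv hw hp.2
    have hi := irr_ratio hθ hw hD.ne'
    rw [h.symm _ _ _ hv hw hi h1 h2,
      h.refine _ _ _ hw hv (irr_inv hi) n hn h1 (by linarith)]
    refine Finset.prod_congr rfl fun k hk => ?_
    have hk' : (k : ℝ) + 1 ≤ n := by exact_mod_cast Finset.mem_range.mp hk
    have hk0 : (0 : ℝ) ≤ k := Nat.cast_nonneg k
    rw [ell_smul, ell_add, ell_smul]
    push_cast
    refine h.symm _ _ _ (mul_pos hnR hw) hv (irr_nat_mul (irr_inv hi) hn.ne') (by positivity) ?_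
    nlinarith
  rw [Finset.prod_congr rfl e1, ← Finset.prod_product']
  symm
  refine Finset.prod_nbij (fun pk => pk.1 + ((pk.2 : ℕ) : ℚ) • w) ?_ ?_ ?_ ?_
  · rintro ⟨p, k⟩ hpk
    rw [Finset.mem_product, Finite.mem_toFinset, Finset.mem_range] at hpk
    obtain ⟨⟨hp, h1, h2, h3, h4⟩, hk⟩ := hpk
    simp only at hp h1 h2 h3 h4 hk
    rw [Finite.mem_toFinset]
    have hk' : (k : ℚ) + 1 ≤ n := by exact_mod_cast hk
    have hk0 : (0 : ℚ) ≤ k := Nat.cast_nonneg k
    refine ⟨((pw.nsmul k) p).mpr hp, ?_, ?_, ?_, ?_⟩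
    · simp only [det_add_left, det_smul_left, det_smul_right, det_self]
      nlinarith
    · simp only [det_add_left, det_smul_left, det_smul_right, det_self]
      nlinarith
    · simp only [det_add_right, det_smul_right]
      nlinarith [mul_nonneg hk0 hD.le]
    · simp only [det_add_right, det_smul_right]
      nlinarith
  · rintro ⟨p, k⟩ hpk ⟨p', k'⟩ hpk' hab
    rw [Finset.mem_coe, Finset.mem_product, Finite.mem_toFinset] at hpk hpk'
    obtain ⟨⟨hp, h1, h2, h3, h4⟩, hk⟩ := hpk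
    obtain ⟨⟨hp', h1', h2', h3', h4'⟩, hk'⟩ := hpk'
    simp only at hab h3 h4 h3' h4'
    have hd := congrArg (fun q => det v q) hab
    simp only [det_add_right, det_smul_right] at hd
    have hkk : k = k' := slab_unique' hD (a := det v p + k * det v w) (by linarith) (by linarith)
      (by linarith) (by linarith)
    subst hkk
    have := add_right_cancel hab
    rw [this]
  · intro q hq
    rw [Finset.mem_coe, Finite.mem_toFinset] at hq
    obtain ⟨hq, g1, g2, g3, g4⟩ := hq
    rw [det_smul_right] at g1 g2 g4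
    rw [det_smul_right] at g2
    obtain ⟨k, hk, k1, k2⟩ := exists_slab' hD g3 g4
    refine ⟨(q - (k : ℚ) • w, k), ?_, ?_⟩
    · rw [Finset.mem_coe, Finset.mem_product, Finite.mem_toFinset, Finset.mem_range]
      have hk0 : (0 : ℚ) ≤ k := Nat.cast_nonneg k
      refine ⟨⟨((pw.nsmul k).sub_mem q).mpr hq, ?_, ?_, ?_, ?_⟩, hk⟩
      · simp only [sub_eq_add_neg, det_add_left, det_neg_left, det_smul_left, det_self]
        have := pos_of_mul_pos_right g1 hn'.le
        linarith
      · simp only [sub_eq_add_neg, det_add_left, det_neg_left, det_smul_left, det_self]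
        have := le_of_mul_le_mul_left g2 hn'
        linarith
      · simp only [sub_eq_add_neg, det_add_right, det_neg_right, det_smul_right]
        linarith
      · simp only [sub_eq_add_neg, det_add_right, det_neg_right, det_smul_right]
        linarith
    · simp only [sub_add_cancel]
  · rintro ⟨p, k⟩ _
    rfl

theorem det_pos_of {θ : ℝ} {v u w : V} (hv : 0 < ell θ v) (hu : 0 < ell θ u) (hw : 0 < ell θ w)
    (d1 : 0 < det v u) (d2 : 0 < det u w) : 0 < det v w := by
  have e := ell_expand θ v w u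
  have m1 : 0 < (det u w : ℝ) * ell θ v := mul_pos (by exact_mod_cast d2) hv
  have m2 : 0 < (det v u : ℝ) * ell θ w := mul_pos (by exact_mod_cast d1) hw
  have : 0 < (det v w : ℝ) * ell θ u := by linarith
  have := pos_of_mul_pos_left this hu.le
  exact_mod_cast this

/-- **The cocycle property.** -/
theorem F_cocycle (h : CS S) {θ : ℝ} (hθ : Irrational θ) {X : Set V} (hX : Disc X) {v u w : V}
    (hv : 0 < ell θ v) (hu : 0 < ell θ u) (hw : 0 < ell θ w)
    (pv : Per X v) (pu : Per X u) (pw : Per X w) (d1 : 0 < det v u) (d2 : 0 < det u w) :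
    F S θ X v w = F S θ X v u * F S θ X u w := by
  have hD := det_pos_of hv hu hw d1 d2
  obtain ⟨N, a, b, hN, ha, hb, e⟩ : ∃ N a b : ℕ, 0 < N ∧ 0 < a ∧ 0 < b ∧
      (N : ℚ) • u = (a : ℚ) • v + (b : ℚ) • w := by
    have hα : 0 < det u w / det v w := div_pos d2 hD
    have hβ : 0 < det v u / det v w := div_pos d1 hD
    set α := det u w / det v w with hαd
    set β := det v u / det v w with hβd
    refine ⟨α.den * β.den, α.num.toNat * β.den, β.num.toNat * α.den,
      Nat.mul_pos α.den_pos β.den_pos,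
      Nat.mul_pos (by have := Rat.num_pos.mpr hα; omega) β.den_pos,
      Nat.mul_pos (by have := Rat.num_pos.mpr hβ; omega) α.den_pos, ?_⟩
    have n1 : ((α.num.toNat : ℕ) : ℚ) = α.num := by
      have h1 : ((α.num.toNat : ℕ) : ℤ) = α.num := Int.toNat_of_nonneg (Rat.num_pos.mpr hα).le
      exact_mod_cast h1
    have n2 : ((β.num.toNat : ℕ) : ℚ) = β.num := by
      have h1 : ((β.num.toNat : ℕ) : ℤ) = β.num := Int.toNat_of_nonneg (Rat.num_pos.mpr hβ).le
      exact_mod_cast h1
    have q1 : (α.num : ℚ) = α * α.den := by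
      have := Rat.num_div_den α
      have hd : (α.den : ℚ) ≠ 0 := by exact_mod_cast α.den_pos.ne'
      field_simp at this
      rw [this, mul_comm]
    have q2 : (β.num : ℚ) = β * β.den := by
      have := Rat.num_div_den β
      have hd : (β.den : ℚ) ≠ 0 := by exact_mod_cast β.den_pos.ne'
      field_simp at this
      rw [this, mul_comm]
    have hu' : u = α • v + β • w := by
      have e := det_expand v w u
      have : u = (det v w)⁻¹ • (det v w • u) := by
        rw [smul_smul, inv_mul_cancel₀ hD.ne', one_smul]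
      rw [this, e, smul_add, smul_smul, smul_smul]
      congr 2 <;> simp only [hαd, hβd] <;> ring
    push_cast
    rw [n1, n2, q1, q2]
    conv_lhs => rw [hu']
    rw [smul_add, smul_smul, smul_smul]
    congr 2 <;> ring
  have haR : (0 : ℝ) < a := by exact_mod_cast ha
  have hbR : (0 : ℝ) < b := by exact_mod_cast hb
  have hav : 0 < ell θ ((a : ℚ) • v) := by
    rw [ell_smul]; push_cast; positivity
  have hbw : 0 < ell θ ((b : ℚ) • w) := by
    rw [ell_smul]; push_cast; positivity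
  have hNu : 0 < ell θ ((N : ℚ) • u) := by
    rw [e, ell_add]; linarith
  calc F S θ X v w = F S θ X ((a : ℚ) • v) w := (F_nsmul_left h hθ hX hv hw pv ha).symm
    _ = F S θ X ((a : ℚ) • v) ((b : ℚ) • w) := (F_nsmul_right h hθ hX hav hw pw hb).symm
    _ = F S θ X ((a : ℚ) • v) ((N : ℚ) • u) * F S θ X ((N : ℚ) • u) ((b : ℚ) • w) := by
        rw [F_subdiv h hθ hX hav hbw (pv.nsmul a) (pw.nsmul b), e]
    _ = F S θ X v ((N : ℚ) • u) * F S θ X ((N : ℚ) • u) w := by
        rw [F_nsmul_left h hθ hX hv hNu pv ha, F_nsmul_right h hθ hX hNu hw pw hb]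
    _ = F S θ X v u * F S θ X u w := by
        rw [F_nsmul_left h hθ hX hu hw pu hN, F_nsmul_right h hθ hX hv hu pu hN]

/-- **Homothety / change of lattice.** -/
theorem F_map' (h : CS S) {θ θ' : ℝ} (hθ' : Irrational θ') {X Y : Set V} (g : V ≃+ V)
    (hg : ∀ p, g p ∈ Y ↔ p ∈ X) {δ : ℚ} (hδ : 0 < δ) (hdet : ∀ p q, det (g p) (g q) = δ * det p q)
    {l : ℝ} (hl : 0 < l) (hell : ∀ p, ell θ (g p) = l * ell θ' p) {v w : V}
    (hv : 0 < ell θ' v) (hw : 0 < ell θ' w) :
    F S θ Y (g v) (g w) = F S θ' X v w := by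
  unfold F
  refine (finprod_mem_eq_of_bijOn g ?_ ?_).symm
  · refine ⟨?_, g.injective.injOn, ?_⟩
    · rintro p ⟨hp, h1, h2, h3, h4⟩
      refine ⟨(hg p).mpr hp, ?_, ?_, ?_, ?_⟩
      · rw [hdet]; positivity
      · rw [hdet, hdet]; exact mul_le_mul_of_nonneg_left h2 hδ.le
      · rw [hdet]; positivity
      · rw [hdet, hdet]; exact mul_lt_mul_of_pos_left h4 hδ
    · rintro q ⟨hq, g1, g2, g3, g4⟩
      obtain ⟨p, rfl⟩ := g.surjective q
      rw [hdet] at g1 g2 g3 g4
      rw [hdet] at g2 g4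
      exact ⟨p, ⟨(hg p).mp hq, pos_of_mul_pos_right g1 hδ.le, le_of_mul_le_mul_left g2 hδ,
        nonneg_of_mul_nonneg_right g3 hδ, lt_of_mul_lt_mul_left g4 hδ.le⟩, rfl⟩
  · rintro p ⟨_, hp⟩
    obtain ⟨h1, h2⟩ := ell_mem hv hw hp
    have hD : 0 < det v w := lt_of_lt_of_le hp.1 hp.2.1
    rw [hell, hell, hell]
    exact (h.homog l _ _ _ hl hv hw (irr_ratio hθ' hw hD.ne') h1 h2).symm

/-- **Distribution.** -/
theorem F_union (θ : ℝ) {ι : Type*} (s : Finset ι) (X : ι → Set V) (Y : Set V)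
    (hX : ∀ i ∈ s, Disc (X i)) (hY : ∀ p, p ∈ Y ↔ ∃ i ∈ s, p ∈ X i)
    (hdis : ∀ i ∈ s, ∀ j ∈ s, ∀ p, p ∈ X i → p ∈ X j → i = j) (v w : V) :
    F S θ Y v w = ∏ i ∈ s, F S θ (X i) v w := by
  unfold F
  have e1 : Y ∩ Par v w = ⋃ i ∈ (s : Set ι), X i ∩ Par v w := by
    ext p
    simp only [mem_inter_iff, mem_iUnion, Finset.mem_coe, exists_prop]
    rw [hY]
    constructor
    · rintro ⟨⟨i, hi, hp⟩, hP⟩
      exact ⟨i, hi, hp, hP⟩
    · rintro ⟨i, hi, hp, hP⟩
      exact ⟨⟨i, hi, hp⟩, hP⟩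
  rw [e1, finprod_mem_biUnion, finprod_mem_coe_finset]
  · intro i hi j hj hij
    rw [Function.onFun, Set.disjoint_left]
    rintro p ⟨hp, _⟩ ⟨hp', _⟩
    exact hij (hdis i hi j hj p hp hp')
  · exact s.finite_toSet
  · intro i hi
    exact finite_inter (hX i hi) v w

end Pool.MP_d0f9e0_co.SH
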