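import Mathlib
import Pool.Agent.Lib.MP_d0f9e0_co.SH.Coc

set_option autoImplicit false

/-!
# The class function `c_(X,A)` and the relations (T), (H), (D), refined (D)
-/

namespace Pool.MP_d0f9e0_co.SH

open Set Filter Topology

variable {M : Type*} [CommMonoid M] {S : ℝ → ℝ → ℝ → M}

/-- The additive automorphism `A` of the plane preserves the orientation form and multiplies
the real place by `η > 0`. -/
structure Hyp (θ : ℝ) (A : V ≃+ V) (η : ℝ) : Prop where
  det_eq : ∀ p q, det (A p) (A q) = det p q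
  ell_eq : ∀ p, ell θ (A p) = η * ell θ p
  pos : 0 < η

/-- `X` is invariant under `A`. -/
def Inv (A : V ≃+ V) (X : Set V) : Prop := ∀ p, A p ∈ X ↔ p ∈ X

/-- `v` is an admissible starting vector. -/
structure Adm (θ : ℝ) (A : V ≃+ V) (X : Set V) (v : V) : Prop where
  per : Per X v
  pos : 0 < ell θ v
  det_pos : 0 < det v (A v)

theorem Inv.per {A : V ≃+ V} {X : Set V} (hA : Inv A X) {v : V} (hv : Per X v) :
    Per X (A v) := by
  intro p
  obtain ⟨q, rfl⟩ := A.surjective p
  rw [← map_add, hA, hA, hv]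

theorem Hyp.pos_of {θ η : ℝ} {A : V ≃+ V} (hA : Hyp θ A η) {v : V} (hv : 0 < ell θ v) :
    0 < ell θ (A v) := by
  rw [hA.ell_eq]
  exact mul_pos hA.pos hv

theorem Adm.map {θ η : ℝ} {A : V ≃+ V} {X : Set V} (hA : Hyp θ A η) (hX : Inv A X) {v : V}
    (hv : Adm θ A X v) : Adm θ A X (A v) :=
  ⟨hX.per hv.per, hA.pos_of hv.pos, by rw [hA.det_eq]; exact hv.det_pos⟩

theorem F_shift (h : CS S) {θ η : ℝ} (hθ : Irrational θ) {A : V ≃+ V} (hA : Hyp θ A η)
    {X Y : Set V} (hXY : ∀ p, A p ∈ Y ↔ p ∈ X) {v w : V} (hv : 0 < ell θ v) (hw : 0 < ell θ w) :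
    F S θ Y (A v) (A w) = F S θ X v w :=
  F_map' h hθ A hXY one_pos (fun p q => by rw [one_mul]; exact hA.det_eq p q) hA.pos hA.ell_eq
    hv hw

/-- **Independence of the starting vector.** -/
theorem F_indep (h : CS S) {θ η : ℝ} (hθ : Irrational θ) {A : V ≃+ V} (hA : Hyp θ A η)
    {X : Set V} (hX : Disc X) (hI : Inv A X) {v w : V} (hv : Adm θ A X v) (hw : Adm θ A X w) :
    F S θ X v (A v) = F S θ X w (A w) := by
  -- first the case `det v w > 0`
  have main : ∀ v w : V, Adm θ A X v → Adm θ A X w → 0 < det v w →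
      F S θ X v (A v) = F S θ X w (A w) := by
    intro v w hv hw hd
    have hAv := hv.map hA hI
    have hAw := hw.map hA hI
    have hd' : 0 < det (A v) (A w) := by rw [hA.det_eq]; exact hd
    rcases lt_trichotomy (det w (A v)) 0 with hc | hc | hc
    · -- `A v` is between `v` and `w`
      have hc' : 0 < det (A v) w := by rw [det_swap]; linarith
      have e1 := F_cocycle h hθ hX hv.pos hAv.pos hw.pos hv.per hAv.per hw.per hv.det_pos hc'
      have e2 := F_cocycle h hθ hX hAv.pos hw.pos hAw.pos hAv.per hw.per hAw.per hc' hw.det_pos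
      rw [F_shift h hθ hA hI hv.pos hw.pos] at e2
      have hp := F_unit h hθ X hAv.pos hw.pos
      rw [e1, mul_comm] at e2
      exact hp.mul_left_cancel e2
    · -- parallel
      have e := det_expand v (A v) w
      have hw2 : det w (A v) = 0 := hc
      rw [hw2, zero_smul, zero_add] at e
      -- `det v (A v) • w = det v w • A v`
      obtain ⟨m, n, hm, hn, hmn⟩ : ∃ m n : ℕ, 0 < m ∧ 0 < n ∧
          (m : ℚ) • w = (n : ℚ) • A v := by
        have hr : 0 < det v w / det v (A v) := div_pos hd hv.det_pos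
        set r := det v w / det v (A v) with hrd
        refine ⟨r.den, r.num.toNat, r.den_pos, by have := Rat.num_pos.mpr hr; omega, ?_⟩
        have n1 : ((r.num.toNat : ℕ) : ℚ) = r.num := by
          have h1 : ((r.num.toNat : ℕ) : ℤ) = r.num :=
            Int.toNat_of_nonneg (Rat.num_pos.mpr hr).le
          exact_mod_cast h1
        have hw' : w = r • A v := by
          have : w = (det v (A v))⁻¹ • (det v (A v) • w) := by
            rw [smul_smul, inv_mul_cancel₀ hv.det_pos.ne', one_smul]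
          rw [this, e, smul_smul, hrd]
          congr 1
          ring
        have hd : (r.den : ℚ) ≠ 0 := by exact_mod_cast r.den_pos.ne'
        rw [n1]
        conv_lhs => rw [hw']
        rw [smul_smul]
        congr 1
        have := Rat.num_div_den r
        field_simp at this
        rw [this]
      have hmap : ∀ (k : ℕ) (u : V), A ((k : ℚ) • u) = (k : ℚ) • A u := by
        intro k u
        rw [Nat.cast_smul_eq_nsmul, Nat.cast_smul_eq_nsmul, map_nsmul]
      have hAAv := hAv.map hA hI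
      have hmR : (0 : ℝ) < m := by exact_mod_cast hm
      have hnR : (0 : ℝ) < n := by exact_mod_cast hn
      calc F S θ X v (A v) = F S θ X (A v) (A (A v)) :=
            (F_shift h hθ hA hI hv.pos hAv.pos).symm
        _ = F S θ X (A v) ((n : ℚ) • A (A v)) :=
            (F_nsmul_right h hθ hX hAv.pos hAAv.pos hAAv.per hn).symm
        _ = F S θ X ((n : ℚ) • A v) ((n : ℚ) • A (A v)) := by
            refine (F_nsmul_left h hθ hX hAv.pos ?_ hAv.per hn).symm
            rw [ell_smul]; push_cast; exact mul_pos hnR hAAv.pos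
        _ = F S θ X ((m : ℚ) • w) ((m : ℚ) • A w) := by
            rw [← hmap n (A v), ← hmap m w, hmn]
        _ = F S θ X w ((m : ℚ) • A w) := by
            refine F_nsmul_left h hθ hX hw.pos ?_ hw.per hm
            rw [ell_smul]; push_cast; exact mul_pos hmR hAw.pos
        _ = F S θ X w (A w) := F_nsmul_right h hθ hX hw.pos hAw.pos hAw.per hm
    · -- `w` is between `v` and `A v`
      have e1 := F_cocycle h hθ hX hv.pos hw.pos hAv.pos hv.per hw.per hAv.per hd hc
      have e2 := F_cocycle h hθ hX hw.pos hAv.pos hAw.pos hw.per hAv.per hAw.per hc hd'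
      rw [F_shift h hθ hA hI hv.pos hw.pos] at e2
      rw [e1, e2, mul_comm]
  rcases lt_trichotomy (det v w) 0 with hc | hc | hc
  · refine (main w v hw hv ?_).symm
    rw [det_swap]; linarith
  · -- parallel: compare both with `A v`
    have e := det_expand v (A v) w
    rw [hc, zero_smul, add_zero] at e
    have hd2 : 0 < det w (A v) := by
      have e1 := congrArg (ell θ) e
      rw [ell_smul, ell_smul] at e1
      have m1 : 0 < ((det v (A v) : ℚ) : ℝ) * ell θ w :=
        mul_pos (by exact_mod_cast hv.det_pos) hw.pos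
      rw [e1] at m1
      have := pos_of_mul_pos_left m1 hv.pos.le
      exact_mod_cast this
    have e1 := main v (A v) hv (hv.map hA hI) hv.det_pos
    have e2 := main w (A v) hw (hv.map hA hI) hd2
    rw [e1, e2]
  · exact main v w hv hw hc

open Classical in
/-- The class function: the product of double sines attached to the `A`-invariant periodic
set `X`. -/
noncomputable def cls (S : ℝ → ℝ → ℝ → M) (θ : ℝ) (A : V ≃+ V) (X : Set V) : M :=
  if hx : ∃ v, Adm θ A X v then F S θ X hx.choose (A hx.choose) else 1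

theorem cls_eq (h : CS S) {θ η : ℝ} (hθ : Irrational θ) {A : V ≃+ V} (hA : Hyp θ A η)
    {X : Set V} (hX : Disc X) (hI : Inv A X) {v : V} (hv : Adm θ A X v) :
    cls S θ A X = F S θ X v (A v) := by
  have hx : ∃ v, Adm θ A X v := ⟨v, hv⟩
  unfold cls
  rw [dif_pos hx]
  exact F_indep h hθ hA hX hI hx.choose_spec hv

theorem cls_pos {S : ℝ → ℝ → ℝ → ℝ} (h : DS S) {θ η : ℝ} (hθ : Irrational θ) {A : V ≃+ V}
    (hA : Hyp θ A η) (X : Set V) : 0 < cls S θ A X := by
  unfold cls
  split_ifs with hx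
  · exact F_pos h hθ X hx.choose_spec.pos (hA.pos_of hx.choose_spec.pos)
  · exact one_pos

theorem cls_unit (h : CS S) {θ η : ℝ} (hθ : Irrational θ) {A : V ≃+ V} (hA : Hyp θ A η)
    (X : Set V) : IsUnit (cls S θ A X) := by
  unfold cls
  split_ifs with hx
  · exact F_unit h hθ X hx.choose_spec.pos (hA.pos_of hx.choose_spec.pos)
  · exact isUnit_one

/-- **(H)** with change of the real place. -/
theorem cls_map (h : CS S) {θ θ' η : ℝ} (hθ : Irrational θ) (hθ' : Irrational θ')
    {A A' : V ≃+ V} (hA : Hyp θ A η) (hA' : Hyp θ' A' η) {X Y : Set V} (hX : Disc X)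
    (hY : Disc Y) (hI : Inv A' X) (g : V ≃+ V) (hg : ∀ p, g p ∈ Y ↔ p ∈ X)
    {δ : ℚ} (hδ : 0 < δ) (hdet : ∀ p q, det (g p) (g q) = δ * det p q)
    {l : ℝ} (hl : 0 < l) (hell : ∀ p, ell θ (g p) = l * ell θ' p)
    (hc : ∀ p, g (A' p) = A (g p)) {v : V} (hv : Adm θ' A' X v) :
    cls S θ A Y = cls S θ' A' X := by
  have hI' : Inv A Y := by
    intro q
    obtain ⟨p, rfl⟩ := g.surjective q
    rw [← hc, hg, hg, hI]
  have hv' : Adm θ A Y (g v) := by
    refine ⟨?_, ?_, ?_⟩
    · intro q
      obtain ⟨p, rfl⟩ := g.surjective q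
      rw [← map_add, hg, hg, hv.per]
    · rw [hell]; exact mul_pos hl hv.pos
    · rw [← hc, hdet]; exact mul_pos hδ hv.det_pos
  rw [cls_eq h hθ hA hY hI' hv', cls_eq h hθ' hA' hX hI hv, ← hc]
  exact F_map' h hθ' g hg hδ hdet hl hell hv.pos (hA'.pos_of hv.pos)

/-- **(D)** for `A`-invariant pieces. -/
theorem cls_union (h : CS S) {θ η : ℝ} (hθ : Irrational θ) {A : V ≃+ V} (hA : Hyp θ A η)
    {ι : Type*} (s : Finset ι) (X : ι → Set V) (Y : Set V)
    (hX : ∀ i ∈ s, Disc (X i)) (hYd : Disc Y) (hXI : ∀ i ∈ s, Inv A (X i))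
    (hY : ∀ p, p ∈ Y ↔ ∃ i ∈ s, p ∈ X i)
    (hdis : ∀ i ∈ s, ∀ j ∈ s, ∀ p, p ∈ X i → p ∈ X j → i = j) {v : V} (hv : 0 < ell θ v)
    (hdv : 0 < det v (A v)) (hper : ∀ i ∈ s, Per (X i) v) :
    cls S θ A Y = ∏ i ∈ s, cls S θ A (X i) := by
  have hvY : Adm θ A Y v := by
    refine ⟨?_, hv, hdv⟩
    intro p
    rw [hY, hY]
    constructor
    · rintro ⟨i, hi, hp⟩
      exact ⟨i, hi, (hper i hi p).mp hp⟩
    · rintro ⟨i, hi, hp⟩
      exact ⟨i, hi, (hper i hi p).mpr hp⟩
  have hYI : Inv A Y := by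
    intro p
    rw [hY, hY]
    constructor
    · rintro ⟨i, hi, hp⟩
      exact ⟨i, hi, (hXI i hi p).mp hp⟩
    · rintro ⟨i, hi, hp⟩
      exact ⟨i, hi, (hXI i hi p).mpr hp⟩
  rw [cls_eq h hθ hA hYd hYI hvY, F_union θ s X Y hX hY hdis]
  refine Finset.prod_congr rfl fun i hi => ?_
  rw [cls_eq h hθ hA (hX i hi) (hXI i hi) ⟨hper i hi, hv, hdv⟩]

end Pool.MP_d0f9e0_co.SH
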