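import Mathlib
import Pool.Agent.Lib.MP_d0f9e0_co.SH.Cls

set_option autoImplicit false

/-!
# Chains, powers of the automorphism and the refined distribution relation
-/

namespace Pool.MP_d0f9e0_co.SH

open Set Filter Topology

variable {M : Type*} [CommMonoid M] {S : ℝ → ℝ → ℝ → M}

theorem chain_det_pos {θ : ℝ} {u : ℕ → V} {n : ℕ} (hpos : ∀ i ≤ n, 0 < ell θ (u i))
    (hd : ∀ i < n, 0 < det (u i) (u (i + 1))) (hn : 0 < n) : 0 < det (u 0) (u n) := by
  induction n with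
  | zero => exact absurd hn (lt_irrefl 0)
  | succ n ih =>
    rcases Nat.eq_zero_or_pos n with h0 | h0
    · subst h0
      exact hd 0 (by norm_num)
    · exact det_pos_of (hpos 0 (Nat.zero_le _)) (hpos n (by omega)) (hpos (n + 1) le_rfl)
        (ih (fun i hi => hpos i (by omega)) (fun i hi => hd i (by omega)) h0) (hd n (by omega))

/-- Telescoping along a chain of rays. -/
theorem F_chain (h : CS S) {θ : ℝ} (hθ : Irrational θ) {X : Set V} (hX : Disc X) {u : ℕ → V}
    {n : ℕ} (hpos : ∀ i ≤ n, 0 < ell θ (u i)) (hper : ∀ i ≤ n, Per X (u i))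
    (hd : ∀ i < n, 0 < det (u i) (u (i + 1))) (hn : 0 < n) :
    F S θ X (u 0) (u n) = ∏ i ∈ Finset.range n, F S θ X (u i) (u (i + 1)) := by
  induction n with
  | zero => exact absurd hn (lt_irrefl 0)
  | succ n ih =>
    rcases Nat.eq_zero_or_pos n with h0 | h0
    · subst h0
      simp
    · have hpos' : ∀ i ≤ n, 0 < ell θ (u i) := fun i hi => hpos i (by omega)
      have hd' : ∀ i < n, 0 < det (u i) (u (i + 1)) := fun i hi => hd i (by omega)
      rw [Finset.prod_range_succ, ← ih hpos' (fun i hi => hper i (by omega)) hd' h0]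
      exact F_cocycle h hθ hX (hpos 0 (Nat.zero_le _)) (hpos n (by omega)) (hpos (n + 1) le_rfl)
        (hper 0 (Nat.zero_le _)) (hper n (by omega)) (hper (n + 1) le_rfl)
        (chain_det_pos hpos' hd' h0) (hd n (by omega))

/-! ### Powers -/

/-- The powers of an additive automorphism. -/
def pw (A : V ≃+ V) : ℕ → (V ≃+ V)
  | 0 => AddEquiv.refl V
  | (j + 1) => (pw A j).trans A

theorem pow_apply_succ (A : V ≃+ V) (j : ℕ) (v : V) : (pw A (j + 1)) v = A ((pw A j) v) := rfl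

theorem pow_apply_zero (A : V ≃+ V) (v : V) : (pw A 0) v = v := rfl

theorem pw_add (A : V ≃+ V) (i j : ℕ) (v : V) : (pw A (i + j)) v = (pw A i) ((pw A j) v) := by
  induction i with
  | zero => rw [Nat.zero_add, pow_apply_zero]
  | succ i ih => rw [Nat.succ_add, pow_apply_succ, pow_apply_succ, ih]

theorem pw_one (A : V ≃+ V) (v : V) : (pw A 1) v = A v := rfl

theorem pow_apply_succ' (A : V ≃+ V) (j : ℕ) (v : V) : (pw A (j + 1)) v = (pw A j) (A v) := by
  rw [pw_add, pw_one]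

theorem Hyp.pow {θ η : ℝ} {A : V ≃+ V} (hA : Hyp θ A η) (j : ℕ) : Hyp θ (pw A j) (η ^ j) := by
  induction j with
  | zero =>
    refine ⟨fun p q => ?_, fun p => ?_, ?_⟩
    · rw [pow_apply_zero, pow_apply_zero]
    · rw [pow_apply_zero, pow_zero, one_mul]
    · rw [pow_zero]; exact one_pos
  | succ j ih =>
    refine ⟨fun p q => ?_, fun p => ?_, ?_⟩
    · rw [pow_apply_succ, pow_apply_succ, hA.det_eq, ih.det_eq]
    · rw [pow_apply_succ, hA.ell_eq, ih.ell_eq, pow_succ]; ring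
    · exact pow_pos hA.pos _

theorem Inv.pow {A : V ≃+ V} {X : Set V} (hA : Inv A X) (j : ℕ) : Inv (pw A j) X := by
  induction j with
  | zero => intro p; rw [pow_apply_zero]
  | succ j ih => intro p; rw [pow_apply_succ, hA, ih]

theorem Adm.pow_map {θ η : ℝ} {A : V ≃+ V} {X : Set V} (hA : Hyp θ A η) (hX : Inv A X) {v : V}
    (hv : Adm θ A X v) (j : ℕ) : Adm θ A X ((pw A j) v) := by
  induction j with
  | zero => rw [pow_apply_zero]; exact hv
  | succ j ih => rw [pow_apply_succ]; exact ih.map hA hX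

theorem pow_det_pos {θ η : ℝ} {A : V ≃+ V} (hA : Hyp θ A η) {v : V} (hv : 0 < ell θ v)
    (hd : 0 < det v (A v)) {j : ℕ} (hj : 0 < j) : 0 < det v ((pw A j) v) := by
  have := chain_det_pos (θ := θ) (u := fun i => (pw A i) v) (n := j)
    (fun i _ => by
      have := (hA.pow i).ell_eq v
      simp only [this]
      exact mul_pos (hA.pow i).pos hv)
    (fun i _ => by
      simp only [pow_apply_succ]
      have h1 : A ((pw A i) v) = (pw A i) (A v) := by
        rw [← pow_apply_succ, pow_apply_succ']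
      rw [h1, (hA.pow i).det_eq]
      exact hd) hj
  simp only [pow_apply_zero] at this
  exact this

/-- **(T)** -/
theorem cls_pow (h : CS S) {θ η : ℝ} (hθ : Irrational θ) {A : V ≃+ V} (hA : Hyp θ A η)
    {X : Set V} (hX : Disc X) (hI : Inv A X) {v : V} (hv : Adm θ A X v) {j : ℕ} (hj : 0 < j) :
    cls S θ (pw A j) X = cls S θ A X ^ j := by
  have hv' : Adm θ (pw A j) X v := ⟨hv.per, hv.pos, pow_det_pos hA hv.pos hv.det_pos hj⟩
  rw [cls_eq h hθ (hA.pow j) hX (hI.pow j) hv', cls_eq h hθ hA hX hI hv]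
  have e := F_chain h hθ hX (u := fun i => (pw A i) v) (n := j)
    (fun i _ => (hv.pow_map hA hI i).pos) (fun i _ => (hv.pow_map hA hI i).per)
    (fun i _ => by
      simp only [pow_apply_succ]
      exact (hv.pow_map hA hI i).det_pos) hj
  simp only [pow_apply_zero] at e
  rw [e]
  have e2 : ∀ i ∈ Finset.range j, F S θ X ((pw A i) v) ((pw A (i + 1)) v) = F S θ X v (A v) := by
    intro i _
    have h1 : (pw A (i + 1)) v = (pw A i) (A v) := pow_apply_succ' A i v
    rw [h1]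
    exact F_shift h hθ (hA.pow i) (hI.pow i) hv.pos (hA.pos_of hv.pos)
  rw [Finset.prod_congr rfl e2, Finset.prod_const, Finset.card_range]

/-- **Refined (D)**: `Y` is the disjoint union of the sets `A^j X_i`, `i ∈ s`, `j < k_i`, and
`A^(k_i)` preserves `X_i`. `L` is a common `A`-invariant group of periods. -/
theorem cls_orbits (h : CS S) {θ η : ℝ} (hθ : Irrational θ) {A : V ≃+ V} (hA : Hyp θ A η)
    {ι : Type*} (s : Finset ι) (X : ι → Set V) (k : ι → ℕ) (Y : Set V) (L : AddSubgroup V)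
    (hL : ∀ p, A p ∈ L ↔ p ∈ L) (hk : ∀ i ∈ s, 0 < k i)
    (hX : ∀ i ∈ s, Disc (X i)) (hYd : Disc Y) (hXL : ∀ i ∈ s, ∀ l ∈ L, Per (X i) l)
    (hXI : ∀ i ∈ s, Inv (pw A (k i)) (X i)) (hYI : Inv A Y)
    (hY : ∀ p, p ∈ Y ↔ ∃ i ∈ s, ∃ j < k i, ∃ x ∈ X i, p = (pw A j) x)
    (hdis : ∀ i ∈ s, ∀ j < k i, ∀ i' ∈ s, ∀ j' < k i', ∀ x ∈ X i, ∀ x' ∈ X i',
      (pw A j) x = (pw A j') x' → i = i' ∧ j = j')
    {v : V} (hvL : v ∈ L) (hv : 0 < ell θ v) (hdv : 0 < det v (A v)) :
    cls S θ A Y = ∏ i ∈ s, cls S θ (pw A (k i)) (X i) := by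
  classical
  have hLp : ∀ (j : ℕ) (p : V), (pw A j) p ∈ L ↔ p ∈ L := by
    intro j
    induction j with
    | zero => intro p; rw [pow_apply_zero]
    | succ j ih => intro p; rw [pow_apply_succ, hL, ih]
  -- the translates
  let Z : ι × ℕ → Set V := fun ij => {p | ∃ x ∈ X ij.1, p = (pw A ij.2) x}
  have hZmap : ∀ ij : ι × ℕ, ∀ p, (pw A ij.2) p ∈ Z ij ↔ p ∈ X ij.1 := by
    intro ij p
    constructor
    · rintro ⟨x, hx, e⟩
      rw [(pw A ij.2).injective e]
      exact hx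
    · intro hp
      exact ⟨p, hp, rfl⟩
  have hYper : Per Y v := by
    intro p
    rw [hY, hY]
    constructor
    · rintro ⟨i, hi, j, hj, x, hx, e⟩
      obtain ⟨w, hw⟩ := (pw A j).surjective v
      have hwL : w ∈ L := by rw [← hLp j w, hw]; exact hvL
      refine ⟨i, hi, j, hj, x - w, ((hXL i hi w hwL).sub_mem x).mpr hx, ?_⟩
      rw [map_sub, hw, ← e, add_sub_cancel_right]
    · rintro ⟨i, hi, j, hj, x, hx, e⟩
      obtain ⟨w, hw⟩ := (pw A j).surjective v
      have hwL : w ∈ L := by rw [← hLp j w, hw]; exact hvL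
      refine ⟨i, hi, j, hj, x + w, (hXL i hi w hwL x).mpr hx, ?_⟩
      rw [map_add, hw, ← e]
  rw [cls_eq h hθ hA hYd hYI ⟨hYper, hv, hdv⟩]
  -- union over the pairs
  set T : Finset (ι × ℕ) := s.biUnion (fun i => (Finset.range (k i)).map
    ⟨fun j => (i, j), fun a b hab => (Prod.ext_iff.mp hab).2⟩) with hT
  have hTm : ∀ ij : ι × ℕ, ij ∈ T ↔ ij.1 ∈ s ∧ ij.2 < k ij.1 := by
    rintro ⟨i, j⟩
    simp only [hT, Finset.mem_biUnion, Finset.mem_map, Finset.mem_range,
      Function.Embedding.coeFn_mk, Prod.mk.injEq]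
    constructor
    · rintro ⟨a, ha, b, hb, rfl, rfl⟩
      exact ⟨ha, hb⟩
    · rintro ⟨ha, hb⟩
      exact ⟨i, ha, j, hb, rfl, rfl⟩
  have hZdisc : ∀ ij ∈ T, Disc (Z ij) := by
    intro ij hij
    rw [hTm] at hij
    obtain ⟨N, hN, hYN⟩ := hYd
    refine ⟨N, hN, ?_⟩
    rintro p ⟨x, hx, e⟩
    exact hYN p ((hY p).mpr ⟨ij.1, hij.1, ij.2, hij.2, x, hx, e⟩)
  have hYZ : ∀ p, p ∈ Y ↔ ∃ ij ∈ T, p ∈ Z ij := by
    intro p
    rw [hY]
    constructor
    · rintro ⟨i, hi, j, hj, x, hx, e⟩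
      exact ⟨(i, j), (hTm (i, j)).mpr ⟨hi, hj⟩, x, hx, e⟩
    · rintro ⟨ij, hij, x, hx, e⟩
      rw [hTm] at hij
      exact ⟨ij.1, hij.1, ij.2, hij.2, x, hx, e⟩
  have hZdis : ∀ ij ∈ T, ∀ ij' ∈ T, ∀ p, p ∈ Z ij → p ∈ Z ij' → ij = ij' := by
    rintro ij hij ij' hij' p ⟨x, hx, e⟩ ⟨x', hx', e'⟩
    rw [hTm] at hij hij'
    obtain ⟨e1, e2⟩ := hdis ij.1 hij.1 ij.2 hij.2 ij'.1 hij'.1 ij'.2 hij'.2 x hx x' hx'
      (e.symm.trans e')
    exact Prod.ext e1 e2
  rw [F_union θ T Z Y hZdisc hYZ hZdis v (A v)]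
  have hsplit : ∏ ij ∈ T, F S θ (Z ij) v (A v) =
      ∏ i ∈ s, ∏ j ∈ Finset.range (k i), F S θ (Z (i, j)) v (A v) := by
    rw [hT, Finset.prod_biUnion]
    · refine Finset.prod_congr rfl fun i _ => ?_
      rw [Finset.prod_map]
      rfl
    · intro a _ b _ hab
      rw [Function.onFun, Finset.disjoint_left]
      intro x hx hx'
      rw [Finset.mem_map] at hx hx'
      obtain ⟨j, _, rfl⟩ := hx
      obtain ⟨j', _, e⟩ := hx'
      exact hab (Prod.ext_iff.mp e).1.symm
  rw [hsplit]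
  refine Finset.prod_congr rfl fun i hi => ?_
  have hki := hk i hi
  obtain ⟨w, hw⟩ := (pw A (k i - 1)).surjective v
  have hwL : w ∈ L := by rw [← hLp (k i - 1) w, hw]; exact hvL
  have hwpos : 0 < ell θ w := by
    have e1 := (hA.pow (k i - 1)).ell_eq w
    rw [hw] at e1
    rw [e1] at hv
    exact pos_of_mul_pos_right hv (hA.pow (k i - 1)).pos.le
  have hwd : 0 < det w (A w) := by
    have h1 : (pw A (k i - 1)) (A w) = A v := by
      have : A ((pw A (k i - 1)) w) = (pw A (k i - 1)) (A w) := by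
        rw [← pow_apply_succ, pow_apply_succ']
      rw [← this, hw]
    have e1 := (hA.pow (k i - 1)).det_eq w (A w)
    rw [hw, h1] at e1
    rw [← e1]
    exact hdv
  have hwadm : Adm θ (pw A (k i)) (X i) w :=
    ⟨hXL i hi w hwL, hwpos, pow_det_pos hA hwpos hwd hki⟩
  rw [cls_eq h hθ (hA.pow (k i)) (hX i hi) (hXI i hi) hwadm]
  have hposw : ∀ m, 0 < ell θ ((pw A m) w) := by
    intro m
    rw [(hA.pow m).ell_eq]
    exact mul_pos (hA.pow m).pos hwpos
  have e := F_chain h hθ (hX i hi) (u := fun m => (pw A m) w) (n := k i)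
    (fun m _ => hposw m) (fun m _ => hXL i hi _ ((hLp m w).mpr hwL))
    (fun m _ => by
      simp only [pow_apply_succ]
      have h1 : A ((pw A m) w) = (pw A m) (A w) := by
        rw [← pow_apply_succ, pow_apply_succ']
      rw [h1, (hA.pow m).det_eq]
      exact hwd) hki
  simp only [pow_apply_zero] at e
  rw [e, ← Finset.prod_range_reflect (fun m => F S θ (X i) ((pw A m) w) ((pw A (m + 1)) w))]
  refine Finset.prod_congr rfl fun j hj => ?_
  have hj' : j < k i := Finset.mem_range.mp hj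
  -- `k i - 1 - j`
  have h1 : (pw A j) ((pw A (k i - 1 - j)) w) = v := by
    have : (pw A (j + (k i - 1 - j))) w = (pw A j) ((pw A (k i - 1 - j)) w) := by
      exact pw_add A _ _ w
    rw [← this, show j + (k i - 1 - j) = k i - 1 by omega, hw]
  have h2 : (pw A j) ((pw A (k i - 1 - j + 1)) w) = A v := by
    have : (pw A (j + (k i - 1 - j + 1))) w = (pw A j) ((pw A (k i - 1 - j + 1)) w) := by
      exact pw_add A _ _ w
    rw [← this, show j + (k i - 1 - j + 1) = (k i - 1) + 1 by omega, pow_apply_succ, hw]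
  have h3 := F_shift h hθ (hA.pow j) (hZmap (i, j)) (hposw (k i - 1 - j))
    (hposw (k i - 1 - j + 1))
  simp only at h3
  rw [h1, h2] at h3
  exact h3

end Pool.MP_d0f9e0_co.SH
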