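import Mathlib
import Pool.Agent.Lib.MP_d0f9e0_co.SH.Pow

set_option autoImplicit false

/-!
# The reflection `c(X) c(-X) = 1` (`0 ∉ X`), `= η` (`0 ∈ X`)
-/

namespace Pool.MP_d0f9e0_co.SH

open Set Filter Topology

section Values

variable {S : ℝ → ℝ → ℝ → ℝ}

/-- The value `S(a|a,b)^2 = b/a`. -/
theorem DS.sq_value (h : DS S) {a b : ℝ} (ha : 0 < a) (hb : 0 < b) (hab : Irrational (a / b)) :
    S a b a * S a b a = b / a := by
  -- `S a * S b = 1`
  have hab1 : S a b b * S a b a = 1 := by
    have := h.refl a b a ha hb hab ha (by linarith)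
    rwa [add_sub_cancel_left] at this
  -- near `0`: `S (z + a) * 2 sin (π z / b) = S (z + b) * 2 sin (π z / a)`
  have hc := h.cont a b ha hb hab
  have ca : ContinuousAt (S a b) a := hc.continuousAt (Ioo_mem_nhds ha (by linarith))
  have cb : ContinuousAt (S a b) b := hc.continuousAt (Ioo_mem_nhds hb (by linarith))
  have ta : Tendsto (fun z : ℝ => S a b (z + a)) (𝓝[>] 0) (𝓝 (S a b a)) := by
    have h3 : Tendsto (fun z : ℝ => z + a) (𝓝[>] 0) (𝓝 a) := by
      have h4 : Tendsto (fun z : ℝ => z + a) (𝓝 0) (𝓝 (0 + a)) :=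
        (continuous_id.add continuous_const).tendsto 0
      rw [zero_add] at h4
      exact h4.mono_left nhdsWithin_le_nhds
    exact ca.tendsto.comp h3
  have tb : Tendsto (fun z : ℝ => S a b (z + b)) (𝓝[>] 0) (𝓝 (S a b b)) := by
    have h3 : Tendsto (fun z : ℝ => z + b) (𝓝[>] 0) (𝓝 b) := by
      have h4 : Tendsto (fun z : ℝ => z + b) (𝓝 0) (𝓝 (0 + b)) :=
        (continuous_id.add continuous_const).tendsto 0
      rw [zero_add] at h4
      exact h4.mono_left nhdsWithin_le_nhds
    exact cb.tendsto.comp h3
  -- `sin (π z / c) / z → π / c`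
  have ts : ∀ c : ℝ, Tendsto (fun z : ℝ => Real.sin (Real.pi * (z / c)) / z) (𝓝[>] 0)
      (𝓝 (Real.pi / c)) := by
    intro c
    have hd : HasDerivAt (fun z : ℝ => Real.sin (Real.pi * (z / c))) (Real.pi / c) 0 := by
      have h1 : HasDerivAt (fun z : ℝ => Real.pi * (z / c)) (Real.pi / c) 0 := by
        have h2 := ((hasDerivAt_id (0 : ℝ)).div_const c).const_mul Real.pi
        have e : Real.pi * (1 / c) = Real.pi / c := by ring
        rw [e] at h2
        exact h2
      have h3 := (Real.hasDerivAt_sin (Real.pi * ((0 : ℝ) / c))).comp (0 : ℝ) h1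
      rw [zero_div, mul_zero, Real.cos_zero, one_mul] at h3
      exact h3
    have h4 := hd.tendsto_slope_zero
    have h5 : Tendsto (fun t : ℝ => t⁻¹ • (Real.sin (Real.pi * ((0 + t) / c)) -
        Real.sin (Real.pi * ((0 : ℝ) / c)))) (𝓝[>] 0) (𝓝 (Real.pi / c)) :=
      h4.mono_left (nhdsWithin_mono _ (fun x hx => ne_of_gt hx))
    refine h5.congr fun t => ?_
    rw [zero_add, zero_div, mul_zero, Real.sin_zero, sub_zero, smul_eq_mul]
    ring
  have e1 : (fun z : ℝ => S a b (z + a) * (Real.sin (Real.pi * (z / b)) / z)) =ᶠ[𝓝[>] 0]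
      fun z : ℝ => S a b (z + b) * (Real.sin (Real.pi * (z / a)) / z) := by
    have h5 : ∀ᶠ z : ℝ in 𝓝[>] 0, z ∈ Ioo (0 : ℝ) (min a b) := Ioo_mem_nhdsGT (lt_min ha hb)
    filter_upwards [h5] with z hz
    have hza : z < a := lt_of_lt_of_le hz.2 (min_le_left _ _)
    have hzb : z < b := lt_of_lt_of_le hz.2 (min_le_right _ _)
    have s1 := two_sin_pos (div_pos hz.1 hb) ((div_lt_one hb).mpr hzb)
    have s2 := two_sin_pos (div_pos hz.1 ha) ((div_lt_one ha).mpr hza)
    rw [h.shift a b z ha hb hab hz.1 hzb, h.shift' ha hb hab hz.1 hza]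
    have hz0 := hz.1
    generalize Real.sin (Real.pi * (z / b)) = u at s1 ⊢
    generalize Real.sin (Real.pi * (z / a)) = w at s2 ⊢
    have hu : u ≠ 0 := by intro h0; rw [h0] at s1; linarith
    have hw : w ≠ 0 := by intro h0; rw [h0] at s2; linarith
    field_simp
  have e2 : S a b a * (Real.pi / b) = S a b b * (Real.pi / a) :=
    tendsto_nhds_unique ((ta.mul (ts b)).congr' e1) (tb.mul (ts a))
  have hpi := Real.pi_pos
  have hSa := h.pos a b a ha hb hab ha (by linarith)
  have e3 : S a b a * a = S a b b * b := by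
    field_simp at e2
    linarith
  have e4 : S a b a * S a b a * a = b := by
    calc S a b a * S a b a * a = S a b a * (S a b a * a) := by ring
      _ = (S a b b * S a b a) * b := by rw [e3]; ring
      _ = b := by rw [hab1, one_mul]
  field_simp
  nlinarith

/-- On the ray `w`: `S(a + t b) S(a + (1-t) b) = 1 / (2 sin π t)`. -/
theorem DS.ray_w (h : DS S) {a b t : ℝ} (ha : 0 < a) (hb : 0 < b) (hab : Irrational (a / b))
    (h0 : 0 < t) (h1 : t < 1) :
    S a b (a + t * b) * S a b (a + (1 - t) * b) = (2 * Real.sin (Real.pi * t))⁻¹ := by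
  have htb : 0 < t * b := mul_pos h0 hb
  have htb' : t * b < b := by nlinarith
  have e1 := h.refl a b (t * b) ha hb hab htb (by linarith)
  have e2 := h.shift a b (t * b) ha hb hab htb htb'
  have e3 : a + b - t * b = a + (1 - t) * b := by ring
  have e4 : t * b / b = t := by field_simp
  rw [e3] at e1
  rw [e4, add_comm (t * b) a] at e2
  have s := two_sin_pos h0 h1
  have e5 : S a b (a + t * b) * S a b (a + (1 - t) * b) =
      (S a b (a + (1 - t) * b) * S a b (t * b)) * (2 * Real.sin (Real.pi * t))⁻¹ := by
    rw [e2]; ring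
  rw [e5, e1, one_mul]

/-- On the ray `v`: `S(s a) S((1-s) a) = 2 sin π s`. -/
theorem DS.ray_v (h : DS S) {a b t : ℝ} (ha : 0 < a) (hb : 0 < b) (hab : Irrational (a / b))
    (h0 : 0 < t) (h1 : t < 1) :
    S a b (t * a) * S a b ((1 - t) * a) = 2 * Real.sin (Real.pi * t) := by
  have hta : 0 < t * a := mul_pos h0 ha
  have hta' : t * a < a := by nlinarith
  have hta2 : 0 < (1 - t) * a := mul_pos (by linarith) ha
  have hta3 : (1 - t) * a < a := by nlinarith
  have e1 := h.refl a b (t * a) ha hb hab hta (by linarith)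
  have e2 := h.shift' ha hb hab hta2 hta3
  have e3 : a + b - t * a = (1 - t) * a + b := by ring
  have e4 : (1 - t) * a / a = 1 - t := by field_simp
  rw [e4, two_sin_symm] at e2
  have s := two_sin_pos h0 h1
  rw [e3, e2] at e1
  generalize 2 * Real.sin (Real.pi * t) = u at *
  field_simp at e1
  linarith

end Values

theorem map_ratCast_smul' (A : V ≃+ V) (r : ℚ) (p : V) : A (r • p) = r • A p :=
  map_rat_smul A.toAddMonoidHom r p

/-- The involution `p ↦` representative of `-p`. -/
noncomputable def rho (v w p : V) : V :=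
  v + w - p + (if det p w = det v w then v else 0) - (if det v p = 0 then w else 0)

theorem rho_det_left (v w p : V) : det (rho v w p) w =
    det v w - det p w + (if det p w = det v w then det v w else 0) := by
  unfold rho
  split_ifs <;> simp only [sub_eq_add_neg, det_add_left, det_neg_left, det_self, add_zero,
    neg_zero]

theorem rho_det_right (v w p : V) : det v (rho v w p) =
    det v w - det v p - (if det v p = 0 then det v w else 0) := by
  unfold rho
  split_ifs <;> simp only [sub_eq_add_neg, det_add_right, det_neg_right, det_self, add_zero,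
    neg_zero] <;> simp [det]

theorem rho_mem {X Y : Set V} (hY : ∀ p, p ∈ Y ↔ -p ∈ X) {v w p : V} (pv : Per X v)
    (pw : Per X w) (hp : p ∈ X ∩ Par v w) : rho v w p ∈ Y ∩ Par v w := by
  obtain ⟨hp, h1, h2, h3, h4⟩ := hp
  refine ⟨?_, ?_, ?_, ?_, ?_⟩
  · rw [hY]
    have h5 : p - v - w ∈ X := (pw.sub_mem _).mpr ((pv.sub_mem _).mpr hp)
    unfold rho
    split_ifs with c1 c2 c2
    · have e : -(v + w - p + v - w) = p - v - v := by abel
      rw [e]
      exact (pv.sub_mem _).mpr ((pv.sub_mem _).mpr hp)
    · have e : -(v + w - p + v - 0) = p - v - w - v := by abel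
      rw [e]
      exact (pv.sub_mem _).mpr h5
    · have e : -(v + w - p + 0 - w) = p - v := by abel
      rw [e]
      exact (pv.sub_mem _).mpr hp
    · have e : -(v + w - p + 0 - 0) = p - v - w := by abel
      rw [e]
      exact h5
  · rw [rho_det_left]
    split_ifs with c
    · linarith
    · have := lt_of_le_of_ne h2 c
      linarith
  · rw [rho_det_left]
    split_ifs with c <;> linarith
  · rw [rho_det_right]
    split_ifs with c <;> linarith
  · rw [rho_det_right]
    split_ifs with c
    · linarith
    · have := lt_of_le_of_ne h3 (Ne.symm c)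
      linarith

theorem rho_rho {v w p : V} (hp : p ∈ Par v w) : rho v w (rho v w p) = p := by
  obtain ⟨h1, h2, h3, h4⟩ := hp
  have c1 : (det (rho v w p) w = det v w) ↔ (det p w = det v w) := by
    rw [rho_det_left]
    split_ifs with c
    · constructor
      · intro _; exact c
      · intro _; rw [c]; ring
    · constructor
      · intro h; exfalso; linarith
      · intro h; exact absurd h c
  have c2 : (det v (rho v w p) = 0) ↔ (det v p = 0) := by
    rw [rho_det_right]
    split_ifs with c
    · constructor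
      · intro _; exact c
      · intro _; rw [c]; ring
    · constructor
      · intro h; exfalso; linarith
      · intro h; exact absurd h c
  have e : rho v w (rho v w p) = v + w - rho v w p +
      (if det (rho v w p) w = det v w then v else 0) -
      (if det v (rho v w p) = 0 then w else 0) := rfl
  rw [e, if_congr c1 rfl rfl, if_congr c2 rfl rfl]
  unfold rho
  abel

theorem S_rho {S : ℝ → ℝ → ℝ → ℝ} (h : DS S) {θ : ℝ} (hθ : Irrational θ) {v w p : V}
    (hv : 0 < ell θ v) (hw : 0 < ell θ w) (hp : p ∈ Par v w) :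
    S (ell θ v) (ell θ w) (ell θ p) * S (ell θ v) (ell θ w) (ell θ (rho v w p)) =
      (if det v p = 0 ∧ det p w ≠ det v w then
        2 * Real.sin (Real.pi * ((det p w / det v w : ℚ) : ℝ)) else 1) *
      (if det p w = det v w ∧ det v p ≠ 0 then
        (2 * Real.sin (Real.pi * ((det v p / det v w : ℚ) : ℝ)))⁻¹ else 1) *
      (if det p w = det v w ∧ det v p = 0 then ell θ w / ell θ v else 1) := by
  obtain ⟨l1, l2⟩ := ell_mem hv hw hp
  obtain ⟨h1, h2, h3, h4⟩ := hp
  have hD : 0 < det v w := lt_of_lt_of_le h1 h2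
  have hi := irr_ratio hθ hw hD.ne'
  have hDR : (0 : ℝ) < det v w := by exact_mod_cast hD
  have ee := ell_expand θ v w p
  by_cases ca : det p w = det v w
  · by_cases cb : det v p = 0
    · -- `p = v`
      have hpv : ell θ p = ell θ v := by
        rw [ca, cb, Rat.cast_zero, zero_mul, add_zero] at ee
        exact mul_left_cancel₀ hDR.ne' ee
      have hr : rho v w p = v + w - p + v - w := by
        unfold rho; rw [if_pos ca, if_pos cb]
      have hr2 : ell θ (rho v w p) = ell θ v := by
        rw [hr]
        simp only [sub_eq_add_neg, ell_add, ell_neg, hpv]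
        ring
      rw [hr2, hpv, h.sq_value hv hw hi, if_neg (fun hh => hh.2 ca), if_neg (fun hh => hh.2 cb),
        if_pos ⟨ca, cb⟩, one_mul, one_mul]
    · -- `p = v + t w`
      have hb : 0 < det v p := lt_of_le_of_ne h3 (Ne.symm cb)
      set t : ℝ := ((det v p / det v w : ℚ) : ℝ) with ht
      have ht' : t = (det v p : ℝ) / det v w := by rw [ht]; push_cast; rfl
      have ht0 : 0 < t := by
        rw [ht]; exact_mod_cast div_pos hb hD
      have ht1 : t < 1 := by
        rw [ht]
        have : det v p / det v w < 1 := (div_lt_one hD).mpr h4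
        exact_mod_cast this
      have hpv : ell θ p = ell θ v + t * ell θ w := by
        rw [ca] at ee
        rw [ht']
        field_simp
        linarith
      have hr : rho v w p = v + w - p + v := by
        unfold rho; rw [if_pos ca, if_neg cb, sub_zero]
      have hr2 : ell θ (rho v w p) = ell θ v + (1 - t) * ell θ w := by
        rw [hr]
        simp only [sub_eq_add_neg, ell_add, ell_neg, hpv]
        ring
      rw [hr2, hpv, h.ray_w hv hw hi ht0 ht1, if_neg (fun hh => hh.2 ca), if_pos ⟨ca, cb⟩,
        if_neg (fun hh => cb hh.2), one_mul, mul_one]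
  · have ha : det p w < det v w := lt_of_le_of_ne h2 ca
    by_cases cb : det v p = 0
    · -- `p = s v`
      set t : ℝ := ((det p w / det v w : ℚ) : ℝ) with ht
      have ht' : t = (det p w : ℝ) / det v w := by rw [ht]; push_cast; rfl
      have ht0 : 0 < t := by
        rw [ht]; exact_mod_cast div_pos h1 hD
      have ht1 : t < 1 := by
        rw [ht]
        have : det p w / det v w < 1 := (div_lt_one hD).mpr ha
        exact_mod_cast this
      have hpv : ell θ p = t * ell θ v := by
        rw [cb, Rat.cast_zero, zero_mul, add_zero] at ee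
        rw [ht']
        field_simp
        linarith
      have hr : rho v w p = v + w - p - w := by
        unfold rho; rw [if_neg ca, if_pos cb, add_zero]
      have hr2 : ell θ (rho v w p) = (1 - t) * ell θ v := by
        rw [hr]
        simp only [sub_eq_add_neg, ell_add, ell_neg, hpv]
        ring
      rw [hr2, hpv, h.ray_v hv hw hi ht0 ht1, if_pos ⟨cb, ca⟩, if_neg (fun hh => ca hh.1),
        if_neg (fun hh => ca hh.1), mul_one, mul_one]
    · -- interior
      have hr : rho v w p = v + w - p := by
        unfold rho; rw [if_neg ca, if_neg cb, add_zero, sub_zero]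
      have hr2 : ell θ (rho v w p) = ell θ v + ell θ w - ell θ p := by
        rw [hr]
        simp only [sub_eq_add_neg, ell_add, ell_neg]
      rw [hr2, mul_comm, h.refl _ _ _ hv hw hi l1 l2, if_neg (fun hh => cb hh.1),
        if_neg (fun hh => ca hh.1), if_neg (fun hh => ca hh.1), mul_one, mul_one]

open Classical in
/-- **Reflection.** -/
theorem cls_refl {S : ℝ → ℝ → ℝ → ℝ} (h : DS S) {θ η : ℝ} (hθ : Irrational θ) {A : V ≃+ V}
    (hA : Hyp θ A η) {X Y : Set V} (hX : Disc X) (hI : Inv A X) (hY : ∀ p, p ∈ Y ↔ -p ∈ X)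
    {v : V} (hv : Adm θ A X v) :
    cls S θ A X * cls S θ A Y = if (0 : V) ∈ X then η else 1 := by
  have hYd : Disc Y := by
    obtain ⟨N, hN, hXN⟩ := hX
    refine ⟨N, hN, fun p hp => ?_⟩
    obtain ⟨a, b, ha, hb⟩ := hXN (-p) ((hY p).mp hp)
    refine ⟨-a, -b, ?_, ?_⟩
    · rw [Prod.fst_neg] at ha
      push_cast
      linarith
    · rw [Prod.snd_neg] at hb
      push_cast
      linarith
  have hYI : Inv A Y := by
    intro p
    rw [hY, hY, ← map_neg, hI]
  have hYv : Adm θ A Y v := by
    refine ⟨?_, hv.pos, hv.det_pos⟩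
    intro p
    rw [hY, hY, neg_add, ← sub_eq_add_neg, hv.per.sub_mem]
  have hAv := hv.map hA hI
  rw [cls_eq h.cs hθ hA hX hI hv, cls_eq h.cs hθ hA hYd hYI hYv, F_eq_prod θ hX, F_eq_prod θ hYd]
  set w := A v with hw
  have hD : 0 < det v w := hv.det_pos
  have hDR : (0 : ℝ) < det v w := by exact_mod_cast hD
  set P := (finite_inter hX v w).toFinset with hP
  set Q := (finite_inter hYd v w).toFinset with hQ
  have hPm : ∀ p, p ∈ P ↔ p ∈ X ∩ Par v w := fun p => Finite.mem_toFinset _
  have hQm : ∀ p, p ∈ Q ↔ p ∈ Y ∩ Par v w := fun p => Finite.mem_toFinset _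
  have hX' : ∀ p, p ∈ X ↔ -p ∈ Y := by
    intro p
    rw [hY, neg_neg]
  have e1 : ∏ q ∈ Q, S (ell θ v) (ell θ w) (ell θ q) =
      ∏ p ∈ P, S (ell θ v) (ell θ w) (ell θ (rho v w p)) := by
    refine (Finset.prod_nbij' (rho v w) (rho v w) ?_ ?_ ?_ ?_ ?_).symm
    · intro p hp
      rw [hPm] at hp
      rw [hQm]
      exact rho_mem hY hv.per hAv.per hp
    · intro q hq
      rw [hQm] at hq
      rw [hPm]
      exact rho_mem hX' hYv.per (hYv.map hA hYI).per hq
    · intro p hp
      rw [hPm] at hp
      exact rho_rho hp.2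
    · intro q hq
      rw [hQm] at hq
      exact rho_rho hq.2
    · intro p _
      rfl
  rw [e1, ← Finset.prod_mul_distrib,
    Finset.prod_congr rfl (fun p hp => S_rho h hθ hv.pos hAv.pos ((hPm p).mp hp).2),
    Finset.prod_mul_distrib, Finset.prod_mul_distrib]
  -- the rays cancel
  have e2 : (∏ p ∈ P, if det v p = 0 ∧ det p w ≠ det v w then
        2 * Real.sin (Real.pi * ((det p w / det v w : ℚ) : ℝ)) else 1) *
      (∏ p ∈ P, if det p w = det v w ∧ det v p ≠ 0 then
        (2 * Real.sin (Real.pi * ((det v p / det v w : ℚ) : ℝ)))⁻¹ else 1) = 1 := by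
    rw [← Finset.prod_filter, ← Finset.prod_filter, Finset.prod_inv_distrib]
    have e3 : ∏ p ∈ P.filter (fun p => det v p = 0 ∧ det p w ≠ det v w),
        2 * Real.sin (Real.pi * ((det p w / det v w : ℚ) : ℝ)) =
        ∏ p ∈ P.filter (fun p => det p w = det v w ∧ det v p ≠ 0),
        2 * Real.sin (Real.pi * ((det v p / det v w : ℚ) : ℝ)) := by
      have dd : ∀ p, det (A p) w = - det v p := by
        intro p
        rw [hw, hA.det_eq, det_swap]
      have hk2 : ∀ p, det v p = 0 → det v (v + A p) = det p w := by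
        intro p cb
        rw [det_add_right, det_self, zero_add]
        have e := det_expand v w p
        rw [cb, zero_smul, add_zero] at e
        have e' : det v w • A p = det p w • w := by
          have := congrArg A e
          rw [map_ratCast_smul' A, map_ratCast_smul' A] at this
          exact this
        have e4 := congrArg (fun q => det v q) e'
        simp only [det_smul_right] at e4
        exact mul_left_cancel₀ hD.ne' (by rw [e4]; ring)
      refine Finset.prod_nbij' (fun p => v + A p) (fun q => A.symm (q - v)) ?_ ?_ ?_ ?_ ?_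
      · intro p hp
        rw [Finset.mem_filter, hPm] at hp
        obtain ⟨⟨hp, h1, h2, h3, h4⟩, cb, ca⟩ := hp
        have k1 : det (v + A p) w = det v w := by
          rw [det_add_left, dd, cb, neg_zero, add_zero]
        have k2 : det v (v + A p) = det p w := hk2 p cb
        rw [Finset.mem_filter, hPm]
        refine ⟨⟨?_, ?_, ?_, ?_, ?_⟩, k1, ?_⟩
        · rw [add_comm, hv.per, hI]
          exact hp
        · rw [k1]; exact hD
        · rw [k1]
        · rw [k2]; exact h1.le
        · rw [k2]; exact lt_of_le_of_ne h2 ca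
        · rw [k2]; exact h1.ne'
      · intro q hq
        rw [Finset.mem_filter, hPm] at hq
        obtain ⟨⟨hq, h1, h2, h3, h4⟩, ca, cb⟩ := hq
        obtain ⟨p, hp⟩ : ∃ p, A p = q - v := A.surjective _
        have hps : A.symm (q - v) = p := by rw [← hp, AddEquiv.symm_apply_apply]
        have k1 : det v p = 0 := by
          rw [← hA.det_eq, ← hw, hp, sub_eq_add_neg, det_add_right, det_neg_right, det_swap q w,
            ca, det_swap v w]
          ring
        have k2 : det p w = det v q := by
          rw [← hk2 p k1, hp, add_sub_cancel]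
        rw [Finset.mem_filter, hPm, hps]
        refine ⟨⟨?_, ?_, ?_, ?_, ?_⟩, k1, ?_⟩
        · rw [← hI, hp, hv.per.sub_mem]
          exact hq
        · rw [k2]; exact lt_of_le_of_ne h3 (Ne.symm cb)
        · rw [k2]; exact h4.le
        · rw [k1]
        · rw [k1]; exact hD
        · rw [k2]; exact h4.ne
      · intro p _
        rw [add_sub_cancel_left, AddEquiv.symm_apply_apply]
      · intro q _
        rw [AddEquiv.apply_symm_apply, add_sub_cancel]
      · intro p hp
        rw [Finset.mem_filter, hPm] at hp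
        rw [hk2 p hp.2.1]
    rw [e3]
    refine mul_inv_cancel₀ (Finset.prod_ne_zero_iff.mpr fun p hp => ?_)
    rw [Finset.mem_filter, hPm] at hp
    obtain ⟨⟨hp, h1, h2, h3, h4⟩, ca, cb⟩ := hp
    refine (two_sin_pos ?_ ?_).ne'
    · exact_mod_cast div_pos (lt_of_le_of_ne h3 (Ne.symm cb)) hD
    · have : det v p / det v w < 1 := (div_lt_one hD).mpr h4
      exact_mod_cast this
  rw [e2, one_mul]
  have hη : ell θ w / ell θ v = η := by
    rw [hw, hA.ell_eq]
    field_simp [hv.pos.ne']
  rw [hη]
  have e5 : ∀ p ∈ P, (if det p w = det v w ∧ det v p = 0 then η else 1) =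
      if p = v then η else 1 := by
    intro p hp
    refine if_congr ?_ rfl rfl
    constructor
    · rintro ⟨ca, cb⟩
      have e := det_expand v w p
      rw [ca, cb, zero_smul, add_zero] at e
      exact smul_right_injective V hD.ne' e
    · rintro rfl
      exact ⟨rfl, det_self p⟩
  rw [Finset.prod_congr rfl e5, Finset.prod_ite_eq' P v (fun _ => η)]
  refine if_congr ?_ rfl rfl
  rw [hPm]
  constructor
  · rintro ⟨h1, _⟩
    have := (hv.per 0).mp (by rw [zero_add]; exact h1)
    exact this
  · intro h0
    refine ⟨?_, hD, le_rfl, ?_, ?_⟩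
    · have := (hv.per 0).mpr h0
      rwa [zero_add] at this
    · rw [det_self]
    · rw [det_self]; exact hD

end Pool.MP_d0f9e0_co.SH
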