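import Mathlib
import Pool.Agent.Lib.MP_d0f9e0_co.SH.Refl

set_option autoImplicit false

/-!
# The class function in the language of lattices and their torsion points
-/

namespace Pool.MP_d0f9e0_co.SH

open Set Filter Topology

/-- A lattice in the rational plane. -/
structure Lat (L : AddSubgroup V) : Prop where
  disc : Disc (L : Set V)
  full : ∀ p : V, ∃ n : ℕ, 0 < n ∧ (n : ℚ) • p ∈ L

/-- The coset of `L` given by a point of `V / L`. -/
def fib (L : AddSubgroup V) (x : V ⧸ L) : Set V := {p | (QuotientAddGroup.mk p : V ⧸ L) = x}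

/-- `A` maps `L` onto itself. -/
def Stab (A : V ≃+ V) (L : AddSubgroup V) : Prop := ∀ p, A p ∈ L ↔ p ∈ L

/-- `x` is fixed by `A`. -/
def IsFix (A : V ≃+ V) (L : AddSubgroup V) (x : V ⧸ L) : Prop :=
  ∀ p : V, (QuotientAddGroup.mk p : V ⧸ L) = x → (QuotientAddGroup.mk (A p) : V ⧸ L) = x

/-- `A` is a hyperbolic automorphism with a totally positive vector. -/
structure Good (θ : ℝ) (A : V ≃+ V) (η : ℝ) : Prop extends Hyp θ A η where
  ex : ∃ v, 0 < ell θ v ∧ 0 < det v (A v)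

theorem mem_fib {L : AddSubgroup V} {x : V ⧸ L} {p : V} :
    p ∈ fib L x ↔ (QuotientAddGroup.mk p : V ⧸ L) = x := Iff.rfl

theorem mem_fib_mk {L : AddSubgroup V} {p q : V} :
    p ∈ fib L (QuotientAddGroup.mk q) ↔ p - q ∈ L := by
  rw [mem_fib, eq_comm, QuotientAddGroup.eq, sub_eq_neg_add]

theorem fib_disc {L : AddSubgroup V} (hL : Lat L) (x : V ⧸ L) : Disc (fib L x) := by
  obtain ⟨q, rfl⟩ := QuotientAddGroup.mk_surjective x
  obtain ⟨N, hN, h⟩ := hL.disc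
  refine ⟨N * (q.1.den * q.2.den), Nat.mul_pos hN (Nat.mul_pos q.1.den_pos q.2.den_pos), ?_⟩
  intro p hp
  rw [mem_fib_mk] at hp
  obtain ⟨a, b, ha, hb⟩ := h _ hp
  have e1 : (q.1.den : ℚ) * q.1 = q.1.num := by
    have := Rat.num_div_den q.1
    have hd : (q.1.den : ℚ) ≠ 0 := by exact_mod_cast q.1.den_pos.ne'
    rw [div_eq_iff hd] at this
    rw [this]; ring
  have e2 : (q.2.den : ℚ) * q.2 = q.2.num := by
    have := Rat.num_div_den q.2
    have hd : (q.2.den : ℚ) ≠ 0 := by exact_mod_cast q.2.den_pos.ne'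
    rw [div_eq_iff hd] at this
    rw [this]; ring
  refine ⟨(q.1.den * q.2.den) * a + N * q.2.den * q.1.num,
    (q.1.den * q.2.den) * b + N * q.1.den * q.2.num, ?_, ?_⟩
  · push_cast
    rw [← ha, ← e1, Prod.fst_sub]
    ring
  · push_cast
    rw [← hb, ← e2, Prod.snd_sub]
    ring

theorem fib_per {L : AddSubgroup V} (x : V ⧸ L) {l : V} (hl : l ∈ L) : Per (fib L x) l := by
  intro p
  rw [mem_fib, mem_fib, QuotientAddGroup.mk_add, (QuotientAddGroup.eq_zero_iff l).mpr hl, add_zero]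

theorem fib_neg {L : AddSubgroup V} (x : V ⧸ L) (p : V) : p ∈ fib L (-x) ↔ -p ∈ fib L x := by
  rw [mem_fib, mem_fib, QuotientAddGroup.mk_neg, neg_eq_iff_eq_neg]

theorem zero_mem_fib {L : AddSubgroup V} (x : V ⧸ L) : (0 : V) ∈ fib L x ↔ x = 0 := by
  rw [mem_fib, QuotientAddGroup.mk_zero, eq_comm]

theorem fib_inv {A : V ≃+ V} {L : AddSubgroup V} (hL : Stab A L) {x : V ⧸ L}
    (hx : IsFix A L x) : Inv A (fib L x) := by
  intro p
  constructor
  · intro hp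
    obtain ⟨q, hq⟩ := QuotientAddGroup.mk_surjective x
    have h1 : (QuotientAddGroup.mk (A q) : V ⧸ L) = x := hx q hq
    have h2 : A p - A q ∈ L := by
      have : A p ∈ fib L (QuotientAddGroup.mk (A q)) := by rw [h1]; exact hp
      exact mem_fib_mk.mp this
    rw [← map_sub, hL] at h2
    rw [← hq]
    exact mem_fib_mk.mpr h2
  · intro hp
    exact hx p hp

theorem Stab.pow {A : V ≃+ V} {L : AddSubgroup V} (hL : Stab A L) (j : ℕ) :
    Stab (pw A j) L := by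
  induction j with
  | zero => intro p; rw [pow_apply_zero]
  | succ j ih => intro p; rw [pow_apply_succ, hL, ih]

theorem IsFix.pow {A : V ≃+ V} {L : AddSubgroup V} {x : V ⧸ L} (hx : IsFix A L x) (j : ℕ) :
    IsFix (pw A j) L x := by
  induction j with
  | zero => intro p hp; rw [pow_apply_zero]; exact hp
  | succ j ih => intro p hp; rw [pow_apply_succ]; exact hx _ (ih p hp)

theorem isFix_mk {A : V ≃+ V} {L : AddSubgroup V} (hL : Stab A L) {p : V} :
    IsFix A L (QuotientAddGroup.mk p) ↔ A p - p ∈ L := by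
  constructor
  · intro h
    exact mem_fib_mk.mp (h p rfl)
  · intro h q hq
    have h1 : q - p ∈ L := mem_fib_mk.mp hq
    refine mem_fib_mk.mpr ?_
    have e : A q - p = A (q - p) + (A p - p) := by rw [map_sub]; abel
    rw [e]
    exact L.add_mem ((hL _).mpr h1) h

theorem IsFix.zero {A : V ≃+ V} {L : AddSubgroup V} (hL : Stab A L) : IsFix A L 0 := by
  rw [← QuotientAddGroup.mk_zero L, isFix_mk hL, map_zero, sub_zero]
  exact L.zero_mem

theorem IsFix.add {A : V ≃+ V} {L : AddSubgroup V} (hL : Stab A L) {x y : V ⧸ L}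
    (hx : IsFix A L x) (hy : IsFix A L y) : IsFix A L (x + y) := by
  obtain ⟨p, rfl⟩ := QuotientAddGroup.mk_surjective x
  obtain ⟨q, rfl⟩ := QuotientAddGroup.mk_surjective y
  rw [isFix_mk hL] at hx hy
  rw [← QuotientAddGroup.mk_add, isFix_mk hL, map_add]
  have e : A p + A q - (p + q) = (A p - p) + (A q - q) := by abel
  rw [e]
  exact L.add_mem hx hy

theorem IsFix.neg {A : V ≃+ V} {L : AddSubgroup V} (hL : Stab A L) {x : V ⧸ L}
    (hx : IsFix A L x) : IsFix A L (-x) := by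
  obtain ⟨p, rfl⟩ := QuotientAddGroup.mk_surjective x
  rw [isFix_mk hL] at hx
  rw [← QuotientAddGroup.mk_neg, isFix_mk hL, map_neg]
  have e : -A p - -p = -(A p - p) := by abel
  rw [e]
  exact L.neg_mem hx

/-- The fixed points of `A` in `V / L`. -/
def Fx (A : V ≃+ V) (L : AddSubgroup V) (hL : Stab A L) : AddSubgroup (V ⧸ L) where
  carrier := {x | IsFix A L x}
  zero_mem' := IsFix.zero hL
  add_mem' := fun hx hy => IsFix.add hL hx hy
  neg_mem' := fun hx => IsFix.neg hL hx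

theorem mem_Fx {A : V ≃+ V} {L : AddSubgroup V} {hL : Stab A L} {x : V ⧸ L} :
    x ∈ Fx A L hL ↔ IsFix A L x := Iff.rfl

theorem Good.pow {θ η : ℝ} {A : V ≃+ V} (hA : Good θ A η) {j : ℕ} (hj : 0 < j) :
    Good θ (pw A j) (η ^ j) where
  toHyp := hA.toHyp.pow j
  ex := by
    obtain ⟨v, h1, h2⟩ := hA.ex
    exact ⟨v, h1, pow_det_pos hA.toHyp h1 h2 hj⟩

theorem Good.exists_adm {θ η : ℝ} {A : V ≃+ V} (hA : Good θ A η) {L : AddSubgroup V}
    (hL : Lat L) : ∃ v ∈ L, 0 < ell θ v ∧ 0 < det v (A v) := by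
  obtain ⟨v, h1, h2⟩ := hA.ex
  obtain ⟨n, hn, hv⟩ := hL.full v
  have hn' : (0 : ℚ) < n := by exact_mod_cast hn
  have hnR : (0 : ℝ) < n := by exact_mod_cast hn
  refine ⟨(n : ℚ) • v, hv, ?_, ?_⟩
  · rw [ell_smul]; push_cast; exact mul_pos hnR h1
  · rw [map_ratCast_smul', det_smul_left, det_smul_right]; positivity

variable {M : Type*} [CommMonoid M]

/-- The class function on `V / L`. -/
noncomputable def cl (S : ℝ → ℝ → ℝ → M) (θ : ℝ) (A : V ≃+ V) (L : AddSubgroup V)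
    (x : V ⧸ L) : M := cls S θ A (fib L x)

theorem adm_fib {θ : ℝ} {A : V ≃+ V} {L : AddSubgroup V} {v : V} (hv : v ∈ L)
    (h1 : 0 < ell θ v) (h2 : 0 < det v (A v)) (x : V ⧸ L) : Adm θ A (fib L x) v :=
  ⟨fib_per x hv, h1, h2⟩

/-- The value of the class function by any vector of the lattice. -/
theorem cl_eq {S : ℝ → ℝ → ℝ → M} (h : CS S) {θ η : ℝ} (hθ : Irrational θ) {A : V ≃+ V}
    (hA : Hyp θ A η) {L : AddSubgroup V} (hL : Lat L) (hs : Stab A L) {x : V ⧸ L}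
    (hx : IsFix A L x) {v : V} (hv : v ∈ L) (h1 : 0 < ell θ v) (h2 : 0 < det v (A v)) :
    cl S θ A L x = F S θ (fib L x) v (A v) :=
  cls_eq h hθ hA (fib_disc hL x) (fib_inv hs hx) (adm_fib hv h1 h2 x)

theorem cl_pos {S : ℝ → ℝ → ℝ → ℝ} (h : DS S) {θ η : ℝ} (hθ : Irrational θ) {A : V ≃+ V}
    (hA : Hyp θ A η) (L : AddSubgroup V) (x : V ⧸ L) : 0 < cl S θ A L x :=
  cls_pos h hθ hA _

theorem cl_unit {S : ℝ → ℝ → ℝ → M} (h : CS S) {θ η : ℝ} (hθ : Irrational θ) {A : V ≃+ V}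
    (hA : Hyp θ A η) (L : AddSubgroup V) (x : V ⧸ L) : IsUnit (cl S θ A L x) :=
  cls_unit h hθ hA _

/-- `c(x) c(-x) = 1`. -/
theorem cl_neg {S : ℝ → ℝ → ℝ → ℝ} (h : DS S) {θ η : ℝ} (hθ : Irrational θ) {A : V ≃+ V}
    (hA : Good θ A η) {L : AddSubgroup V} (hL : Lat L) (hs : Stab A L) {x : V ⧸ L}
    (hx : IsFix A L x) (h0 : x ≠ 0) : cl S θ A L x * cl S θ A L (-x) = 1 := by
  obtain ⟨v, hv, h1, h2⟩ := hA.exists_adm hL
  have := cls_refl h hθ hA.toHyp (fib_disc hL x) (fib_inv hs hx) (fib_neg x)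
    (adm_fib hv h1 h2 x)
  rw [if_neg (fun hh => h0 ((zero_mem_fib x).mp hh))] at this
  exact this

/-- `c(0) = √η`. -/
theorem cl_zero {S : ℝ → ℝ → ℝ → ℝ} (h : DS S) {θ η : ℝ} (hθ : Irrational θ) {A : V ≃+ V}
    (hA : Good θ A η) {L : AddSubgroup V} (hL : Lat L) (hs : Stab A L) :
    cl S θ A L 0 = Real.sqrt η := by
  obtain ⟨v, hv, h1, h2⟩ := hA.exists_adm hL
  have := cls_refl h hθ hA.toHyp (fib_disc hL 0) (fib_inv hs (IsFix.zero hs)) (fib_neg 0)
    (adm_fib hv h1 h2 0)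
  rw [if_pos ((zero_mem_fib 0).mpr rfl), neg_zero] at this
  have hp := cl_pos h hθ hA.toHyp L 0
  unfold cl at *
  rw [← this, Real.sqrt_mul_self hp.le]

/-- **(T)** -/
theorem cl_pow {S : ℝ → ℝ → ℝ → M} (h : CS S) {θ η : ℝ} (hθ : Irrational θ) {A : V ≃+ V}
    (hA : Good θ A η) {L : AddSubgroup V} (hL : Lat L) (hs : Stab A L) {x : V ⧸ L}
    (hx : IsFix A L x) {j : ℕ} (hj : 0 < j) :
    cl S θ (pw A j) L x = cl S θ A L x ^ j := by
  obtain ⟨v, hv, h1, h2⟩ := hA.exists_adm hL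
  exact cls_pow h hθ hA.toHyp (fib_disc hL x) (fib_inv hs hx) (adm_fib hv h1 h2 x) hj

/-- **(H)**: transport by `g : V ≃+ V` with `g L = L'` and `g A' = A g`. -/
theorem cl_map {S : ℝ → ℝ → ℝ → M} (h : CS S) {θ θ' η : ℝ} (hθ : Irrational θ)
    (hθ' : Irrational θ') {A A' : V ≃+ V} (hA : Hyp θ A η) (hA' : Good θ' A' η)
    {L L' : AddSubgroup V} (hL : Lat L) (hL' : Lat L') (hs : Stab A' L) (g : V ≃+ V)
    (hg : ∀ p, g p ∈ L' ↔ p ∈ L) {δ : ℚ} (hδ : 0 < δ)
    (hdet : ∀ p q, det (g p) (g q) = δ * det p q) {l : ℝ} (hl : 0 < l)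
    (hell : ∀ p, ell θ (g p) = l * ell θ' p) (hc : ∀ p, g (A' p) = A (g p)) {p : V}
    (hx : IsFix A' L (QuotientAddGroup.mk p)) :
    cl S θ A L' (QuotientAddGroup.mk (g p)) = cl S θ' A' L (QuotientAddGroup.mk p) := by
  obtain ⟨v, hv, h1, h2⟩ := hA'.exists_adm hL
  refine cls_map h hθ hθ' hA hA'.toHyp (fib_disc hL _) (fib_disc hL' _) (fib_inv hs hx) g ?_ hδ
    hdet hl hell hc (adm_fib hv h1 h2 _)
  intro q
  rw [mem_fib_mk, mem_fib_mk, ← map_sub, hg]

/-- **(D)**: `L ≤ L'`, `z i` (`i ∈ s`) representatives of `L' / L`. -/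
theorem cl_dist {S : ℝ → ℝ → ℝ → M} (h : CS S) {θ η : ℝ} (hθ : Irrational θ) {A : V ≃+ V}
    (hA : Good θ A η) {L L' : AddSubgroup V} (hL : Lat L) (hL' : Lat L') (hs : Stab A L)
    (hLL : L ≤ L') {ι : Type*} (s : Finset ι) (z : ι → V) (hz : ∀ i ∈ s, z i ∈ L')
    (hz1 : ∀ l ∈ L', ∃ i ∈ s, l - z i ∈ L) (hz2 : ∀ i ∈ s, ∀ j ∈ s, z i - z j ∈ L → i = j)
    {p : V} (hx : ∀ i ∈ s, IsFix A L (QuotientAddGroup.mk (p + z i))) :
    cl S θ A L' (QuotientAddGroup.mk p) =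
      ∏ i ∈ s, cl S θ A L (QuotientAddGroup.mk (p + z i)) := by
  obtain ⟨v, hv, h1, h2⟩ := hA.exists_adm hL
  refine cls_union h hθ hA.toHyp s (fun i => fib L (QuotientAddGroup.mk (p + z i)))
    (fib L' (QuotientAddGroup.mk p)) (fun i _ => fib_disc hL _) (fib_disc hL' _)
    (fun i hi => fib_inv hs (hx i hi)) ?_ ?_ h1 h2 (fun i _ => fib_per _ hv)
  · intro q
    rw [mem_fib_mk]
    constructor
    · intro hq
      obtain ⟨i, hi, hi2⟩ := hz1 _ hq
      refine ⟨i, hi, mem_fib_mk.mpr ?_⟩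
      rw [← sub_sub]
      exact hi2
    · rintro ⟨i, hi, hi2⟩
      have h3 : q - (p + z i) ∈ L' := hLL (mem_fib_mk.mp hi2)
      have e : q - p = q - (p + z i) + z i := by abel
      rw [e]
      exact L'.add_mem h3 (hz i hi)
  · intro i hi j hj q hq hq'
    have h3 : q - (p + z i) ∈ L := mem_fib_mk.mp hq
    have h4 : q - (p + z j) ∈ L := mem_fib_mk.mp hq'
    refine hz2 i hi j hj ?_
    have e : z i - z j = (q - (p + z j)) - (q - (p + z i)) := by abel
    rw [e]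
    exact L.sub_mem h4 h3

/-! ### Products -/

theorem F_mul {S T : ℝ → ℝ → ℝ → M} (θ : ℝ) {X : Set V} (hX : Disc X) (v w : V) :
    F (fun a b z => S a b z * T a b z) θ X v w = F S θ X v w * F T θ X v w := by
  rw [F_eq_prod θ hX, F_eq_prod θ hX, F_eq_prod θ hX, Finset.prod_mul_distrib]

theorem F_hom {N : Type*} [CommMonoid N] {S : ℝ → ℝ → ℝ → M} (f : M →* N) (θ : ℝ) {X : Set V}
    (hX : Disc X) (v w : V) :
    F (fun a b z => f (S a b z)) θ X v w = f (F S θ X v w) := by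
  rw [F_eq_prod θ hX, F_eq_prod θ hX, map_prod]

theorem cls_mul {S T : ℝ → ℝ → ℝ → M} (θ : ℝ) (A : V ≃+ V) {X : Set V} (hX : Disc X) :
    cls (fun a b z => S a b z * T a b z) θ A X = cls S θ A X * cls T θ A X := by
  unfold cls
  split_ifs with hx
  · exact F_mul θ hX _ _
  · rw [one_mul]

theorem cls_hom {N : Type*} [CommMonoid N] {S : ℝ → ℝ → ℝ → M} (f : M →* N) (θ : ℝ)
    (A : V ≃+ V) {X : Set V} (hX : Disc X) :
    cls (fun a b z => f (S a b z)) θ A X = f (cls S θ A X) := by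
  unfold cls
  split_ifs with hx
  · exact F_hom f θ hX _ _
  · rw [map_one]

/-- One factor for a parallelogram with one point. -/
theorem F_single {S : ℝ → ℝ → ℝ → M} (θ : ℝ) {X : Set V} {v w p : V}
    (hp : ∀ q, q ∈ X ∩ Par v w ↔ q = p) :
    F S θ X v w = S (ell θ v) (ell θ w) (ell θ p) := by
  have e : X ∩ Par v w = {p} := by
    ext q
    rw [hp, mem_singleton_iff]
  unfold F
  rw [e, finprod_mem_singleton]

end Pool.MP_d0f9e0_co.SH
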