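import Mathlib
import Pool.Agent.Lib.MP_d0f9e0_co.SH.Lat
import Pool.Agent.Lib.MP_d0f9e0_co.GH.Defs

set_option autoImplicit false

/-!
# The relations of the class function in the language of `GH/Defs`
-/

namespace Pool.MP_d0f9e0_co.SH

open Set

theorem fib_eq (L : AddSubgroup V) (x : V ⧸ L) : GH.fib L x = fib L x := rfl

theorem cL_eq (S : ℝ → ℝ → ℝ → ℝ) (θ : ℝ) (A : V ≃+ V) (L : AddSubgroup V) (x : V ⧸ L) :
    GH.cL S θ A L x = cl S θ A L x := rfl

theorem mem_Fx_iff {A : V ≃+ V} {L : AddSubgroup V} (hs : Stab A L) {x : V ⧸ L} :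
    x ∈ GH.Fx A L ↔ IsFix A L x := by
  unfold GH.Fx
  rw [AddSubgroup.mem_map]
  constructor
  · rintro ⟨p, hp, rfl⟩
    rw [AddSubgroup.mem_comap] at hp
    rw [QuotientAddGroup.mk'_apply, isFix_mk hs]
    exact hp
  · intro hx
    obtain ⟨p, rfl⟩ := QuotientAddGroup.mk_surjective x
    refine ⟨p, ?_, rfl⟩
    rw [isFix_mk hs] at hx
    rw [AddSubgroup.mem_comap]
    exact hx

theorem mk_mem_Fx {A : V ≃+ V} {L : AddSubgroup V} (hs : Stab A L) {p : V} :
    (QuotientAddGroup.mk p : V ⧸ L) ∈ GH.Fx A L ↔ A p - p ∈ L := by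
  rw [mem_Fx_iff hs, isFix_mk hs]

theorem ratMul_mem_closure {L : AddSubgroup V} {u : V} (hu : u ∈ L) (r : ℚ) :
    (r.den : ℚ) • (r • u) ∈ L := by
  have e : (r.den : ℚ) • (r • u) = r.num • u := by
    rw [smul_smul]
    have : (r.den : ℚ) * r = r.num := by
      have := Rat.num_div_den r
      have hd : (r.den : ℚ) ≠ 0 := by exact_mod_cast r.den_pos.ne'
      rw [div_eq_iff hd] at this
      rw [this]; ring
    rw [this, Int.cast_smul_eq_zsmul]
  rw [e]
  exact L.zsmul_mem hu _

theorem Lat.of_gh {L : AddSubgroup V} {δ : ℚ} {u w : V} (h : GH.Lat L δ u w) : Lat L where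
  disc := by
    -- common denominator of `u`, `w`
    have key : ∀ v : V, ∃ N : ℕ, 0 < N ∧ ∃ a b : ℤ, (N : ℚ) * v.1 = a ∧ (N : ℚ) * v.2 = b := by
      intro v
      refine ⟨v.1.den * v.2.den, Nat.mul_pos v.1.den_pos v.2.den_pos,
        v.1.num * v.2.den, v.2.num * v.1.den, ?_, ?_⟩
      · have := Rat.num_div_den v.1
        have hd : (v.1.den : ℚ) ≠ 0 := by exact_mod_cast v.1.den_pos.ne'
        rw [div_eq_iff hd] at this
        push_cast
        rw [this]; ring
      · have := Rat.num_div_den v.2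
        have hd : (v.2.den : ℚ) ≠ 0 := by exact_mod_cast v.2.den_pos.ne'
        rw [div_eq_iff hd] at this
        push_cast
        rw [this]; ring
    obtain ⟨N, hN, a, b, ha, hb⟩ := key u
    obtain ⟨N', hN', a', b', ha', hb'⟩ := key w
    refine ⟨N * N', Nat.mul_pos hN hN', ?_⟩
    intro p hp
    rw [h.eq, SetLike.mem_coe] at hp
    induction hp using AddSubgroup.closure_induction with
    | mem x hx =>
      rcases hx with rfl | hx
      · refine ⟨N' * a, N' * b, ?_, ?_⟩
        · push_cast; rw [← ha]; ring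
        · push_cast; rw [← hb]; ring
      · rw [mem_singleton_iff] at hx
        subst hx
        refine ⟨N * a', N * b', ?_, ?_⟩
        · push_cast; rw [← ha']; ring
        · push_cast; rw [← hb']; ring
    | zero => exact ⟨0, 0, by simp, by simp⟩
    | add x y _ _ hx hy =>
      obtain ⟨x1, x2, hx1, hx2⟩ := hx
      obtain ⟨y1, y2, hy1, hy2⟩ := hy
      refine ⟨x1 + y1, x2 + y2, ?_, ?_⟩
      · rw [Prod.fst_add, mul_add, hx1, hy1]; push_cast; ring
      · rw [Prod.snd_add, mul_add, hx2, hy2]; push_cast; ring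
    | neg x _ hx =>
      obtain ⟨x1, x2, hx1, hx2⟩ := hx
      refine ⟨-x1, -x2, ?_, ?_⟩
      · rw [Prod.fst_neg, mul_neg, hx1]; push_cast; ring
      · rw [Prod.snd_neg, mul_neg, hx2]; push_cast; ring
  full := by
    intro p
    have hu : u ∈ L := by rw [h.eq]; exact AddSubgroup.subset_closure (Or.inl rfl)
    have hw : w ∈ L := by rw [h.eq]; exact AddSubgroup.subset_closure (Or.inr rfl)
    have hd : det u w ≠ 0 := by rw [h.det_eq]; exact h.pos.ne'
    set r := det p w / det u w with hr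
    set s := det u p / det u w with hs
    have hp : p = r • u + s • w := by
      have e := det_expand u w p
      have : p = (det u w)⁻¹ • (det u w • p) := by
        rw [smul_smul, inv_mul_cancel₀ hd, one_smul]
      rw [this, e, smul_add, smul_smul, smul_smul, hr, hs]
      congr 2 <;> ring
    refine ⟨r.den * s.den, Nat.mul_pos r.den_pos s.den_pos, ?_⟩
    rw [hp, smul_add]
    refine L.add_mem ?_ ?_
    · have e : ((r.den * s.den : ℕ) : ℚ) • r • u = s.den • ((r.den : ℚ) • (r • u)) := by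
        rw [← Nat.cast_smul_eq_nsmul ℚ, smul_smul, smul_smul]
        push_cast
        rw [smul_smul, mul_comm (s.den : ℚ) (r.den : ℚ)]
      rw [e]
      exact L.nsmul_mem (ratMul_mem_closure hu r) _
    · have e : ((r.den * s.den : ℕ) : ℚ) • s • w = r.den • ((s.den : ℚ) • (s • w)) := by
        rw [← Nat.cast_smul_eq_nsmul ℚ, smul_smul, smul_smul]
        push_cast
        rw [smul_smul]
      rw [e]
      exact L.nsmul_mem (ratMul_mem_closure hw s) _

end Pool.MP_d0f9e0_co.SH
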