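import Mathlib
import Pool.Agent.Lib.MP_d0f9e0_co.SH.Cone
import Pool.Agent.Lib.MP_d0f9e0_co.DS71c

set_option autoImplicit false

/-!
# The double sine function satisfies the interface of the cone machinery
-/

namespace Pool.MP_d0f9e0_co.SH

open Set Pool.Agent.DS71

/-- The real double sine function. -/
noncomputable def Sr (a b z : ℝ) : ℝ := (Sd a b (z : ℂ)).re

theorem Sr_ofReal (a b z : ℝ) : ((Sr a b z : ℝ) : ℂ) = Sd a b (z : ℂ) := by
  apply Complex.ext
  · rfl
  · rw [Complex.ofReal_im, Sd_im]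

theorem ds_Sr : DS Sr where
  pos := fun a b z _ _ _ _ _ => Sd_re_pos a b z
  cont := by
    intro a b ha hb _ z hz
    have h1 : ContinuousAt (Sd a b) ((z : ℝ) : ℂ) :=
      continuousAt_Sd ha hb (by rw [Complex.ofReal_re]; exact hz.1)
        (by rw [Complex.ofReal_re]; exact hz.2)
    have h2 : ContinuousAt (fun x : ℝ => (Sd a b (x : ℂ)).re) z :=
      Complex.continuous_re.continuousAt.comp
        (ContinuousAt.comp (f := fun x : ℝ => (x : ℂ)) h1 Complex.continuous_ofReal.continuousAt)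
    exact h2.continuousWithinAt
  shift := by
    intro a b z ha hb _ h0 h1
    have h := Sd_add ha hb (z := ((z : ℝ) : ℂ)) (by rw [Complex.ofReal_re]; exact h0)
      (by rw [Complex.ofReal_re]; exact h1)
    have e1 : ((z : ℝ) : ℂ) + (a : ℂ) = ((z + a : ℝ) : ℂ) := by push_cast; ring
    have e2 : (Real.pi * ((z : ℝ) : ℂ) / b : ℂ) = ((Real.pi * (z / b) : ℝ) : ℂ) := by
      push_cast; ring
    rw [e1, e2, ← Sr_ofReal, ← Sr_ofReal, ← Complex.ofReal_sin] at h
    have h' : Sr a b (z + a) * (2 * Real.sin (Real.pi * (z / b))) = Sr a b z := by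
      exact_mod_cast h
    have s := two_sin_pos (div_pos h0 hb) ((div_lt_one hb).mpr h1)
    rw [eq_div_iff s.ne']
    exact h'
  symm := fun a b z _ _ _ _ _ => by unfold Sr; rw [Sd_comm]
  refl := by
    intro a b z _ _ _ _ _
    have h := Sd_refl a b ((z : ℝ) : ℂ)
    have e1 : ((a : ℂ) + b - ((z : ℝ) : ℂ)) = ((a + b - z : ℝ) : ℂ) := by push_cast; ring
    rw [e1, ← Sr_ofReal, ← Sr_ofReal] at h
    have h' : Sr a b z * Sr a b (a + b - z) = 1 := by exact_mod_cast h
    rw [mul_comm]
    exact h'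
  homog := by
    intro l a b z hl _ _ _ _ _
    have h := Sd_scale hl a b ((z : ℝ) : ℂ)
    unfold Sr
    rw [← h]
    push_cast
    rfl

end Pool.MP_d0f9e0_co.SH
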